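import Pool.Agent.Lib.PlaneTop.Jump

attribute [-instance] IsScalarTower.complexToReal RightPreLieAlgebra.toModule
  LeftPreLieAlgebra.toModule AddQuantale.instAddLeftMono ProperSMul.toContinuousSMul
  TotallySeparatedSpace.t2Space RKHS.instFunLike NonarchimedeanAddGroup.toIsTopologicalAddGroup
  AddQuantale.instAddRightMono LieRinehartAlgebra.toIsScalarTower Valued.toUniformSpace
  IsTopologicalTorsor.toContinuousSMul NumberField.to_charZero continuousSub_of_discreteTopology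
  RightPreLieAlgebra.toIsScalarTower LieAdmissibleAlgebra.toIsScalarTower
  NonUnitalNonAssocRing.toAddCommGroup NonUnitalNormedRing.toNonUnitalSeminormedRing
  Quantale.instMulRightMono GrpTypeEquivalenceGrp.grpGroup LieAdmissibleAlgebra.toSMulCommClass
  IdemSemiring.toCanonicallyOrderedAdd CoalgHomClass.toSemilinearMapClass
  LinearOrderedCommMonoidWithZero.toPosMulStrictMono LeftPreLieAlgebra.toSMulCommClass
  LeftPreLieAlgebra.toIsScalarTower littleWedderburn CommRing.toRing CommGroup.toGroup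
  NonarchimedeanRing.toIsTopologicalRing CStarAlgebra.instOrderClosedTopology NormedRing.toRing
  NonUnitalAlgSemiHomClass.toDistribMulActionSemiHomClass
  NonUnitalNormedCommRing.toNonUnitalSeminormedCommRing RightPreLieAlgebra.toSMulCommClass
  continuousSub_of_indiscreteTopology SemilinearIsometryClass.toSemilinearMapClass
  NonAssocSemiring.toNonUnitalNonAssocSemiring NonUnitalRing.toNonUnitalNonAssocRing
  LieAdmissibleRing.toNonUnitalNonAssocRing Valued.isTopologicalDivisionRing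
  Fintype.decidableExistsFintype MulSemiringAction.toDistribMulAction LieRing.toAddCommGroup
  RingHomClass.toLinearMapClassNNRat instIsModuleTopology AlexandrovDiscrete.toLocallyCompactSpace
  IsAffineAddMonoid.toIsCancelAdd AddCommMonoidWithOne.toAddCommMonoid
  IsValuativeTopology.instIsTopologicalAddGroup UpgradedStandardBorel.toTopologicalSpace
  IsModuleTopology.instSubsingleton Torsor.toMulAction NormedRing.toSeminormedRing
  NonUnitalNormedCommRing.toNonUnitalCommRing instZeroLEOneClass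
  NonUnitalNonAssocCommSemiring.toNonUnitalNonAssocSemiring

/-! Almost ascending paths; approximate convex combinations; general position. -/

namespace Pool.Agent.MP_17e62b_gt.H14

open Set
open scoped BigOperators

/-- From every point of `C` and for every functional an almost ascending path in `C` reaches `B`. -/
def HP {X : Type} [NormedAddCommGroup X] [NormedSpace ℝ X] (C B : Set ℂ) (W : ℂ → X) (δ : ℝ) :
    Prop :=
  ∀ x ∈ C, ∀ l : X →L[ℝ] ℝ, ‖l‖ ≤ 1 → ∃ b ∈ B, JoinedIn {y | y ∈ C ∧ l (W x) - δ ≤ l (W y)} x b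

/-- The determinant of two plane vectors. -/
def det2 (v w : ℂ) : ℝ := v.re * w.im - v.im * w.re

variable {X Y : Type} [NormedAddCommGroup X] [NormedSpace ℝ X] [NormedAddCommGroup Y]
  [NormedSpace ℝ Y]

theorem HP.map {C B : Set ℂ} {W : ℂ → X} {δ : ℝ} (h : HP C B W δ) (A : X →L[ℝ] Y)
    (hA : ‖A‖ ≤ 1) : HP C B (fun x => A (W x)) δ := fun x hx l hl =>
  h x hx (l.comp A) ((l.opNorm_comp_le A).trans (mul_le_one₀ hl (norm_nonneg _) hA))

theorem HP.mono {C B : Set ℂ} {W : ℂ → X} {δ δ' : ℝ} (h : HP C B W δ) (hδ : δ ≤ δ') :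
    HP C B W δ' := fun x hx l hl => by
  obtain ⟨b, hb, hj⟩ := h x hx l hl
  exact ⟨b, hb, hj.mono fun y hy => ⟨hy.1, by linarith [hy.2]⟩⟩

/-- H1. If every point of `B` lies on a segment in `C` with ends in `B'` on which `W` is affine,
the paths can be continued to `B'` (walk to the better end). -/
theorem HP.to_vertices {C B B' : Set ℂ} {W : ℂ → X} {δ : ℝ} (h : HP C B W δ)
    (hB : ∀ y ∈ B, ∃ v ∈ B', ∃ v' ∈ B', y ∈ segment ℝ v v' ∧ segment ℝ v v' ⊆ C ∧
      ∀ t ∈ Icc (0 : ℝ) 1, W (AffineMap.lineMap v v' t) = AffineMap.lineMap (W v) (W v') t) :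
    HP C B' W δ := by
  intro x hx l hl
  obtain ⟨b, hb, hj⟩ := h x hx l hl
  obtain ⟨v, hv, v', hv', hs, hC, hW⟩ := hB b hb
  rw [segment_eq_image_lineMap] at hs hC
  obtain ⟨t₀, ht₀, rfl⟩ := hs
  have e : ∀ t ∈ Icc (0 : ℝ) 1, l (W (AffineMap.lineMap v v' t)) =
      (1 - t) * l (W v) + t * l (W v') := fun t ht => by
    rw [hW t ht, AffineMap.lineMap_apply_module, map_add, map_smul, map_smul, smul_eq_mul,
      smul_eq_mul]
  have key : ∀ t₁ ∈ Icc (0 : ℝ) 1, l (W x) - δ ≤ (1 - t₁) * l (W v) + t₁ * l (W v') →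
      JoinedIn {y | y ∈ C ∧ l (W x) - δ ≤ l (W y)} x (AffineMap.lineMap v v' t₁) :=
    fun t₁ h1 h2 => by
      have hU : Convex ℝ (Icc (0 : ℝ) 1 ∩
          {t : ℝ | l (W x) - δ - l (W v) ≤ (l (W v') - l (W v)) * t}) :=
        (convex_Icc 0 1).inter (convex_halfSpace_ge
          ⟨fun a b => mul_add _ a b, fun c a => mul_left_comm _ c a⟩ _)
      have m0 : t₀ ∈ Icc (0 : ℝ) 1 ∩
          {t : ℝ | l (W x) - δ - l (W v) ≤ (l (W v') - l (W v)) * t} := by
        refine ⟨ht₀, ?_⟩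
        have h3 := hj.target_mem.2
        rw [e t₀ ht₀] at h3
        rw [mem_ofPred_eq]
        linarith
      have m1 : t₁ ∈ Icc (0 : ℝ) 1 ∩
          {t : ℝ | l (W x) - δ - l (W v) ≤ (l (W v') - l (W v)) * t} := by
        refine ⟨h1, ?_⟩
        rw [mem_ofPred_eq]
        linarith
      refine hj.trans ((((hU.isPathConnected ⟨t₀, m0⟩).image
        (AffineMap.lineMap_continuous (p := v) (q := v'))).joinedIn _ ⟨t₀, m0, rfl⟩ _
          ⟨t₁, m1, rfl⟩).mono ?_)
      rintro _ ⟨t, ⟨h4, h5⟩, rfl⟩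
      refine ⟨hC ⟨t, h4, rfl⟩, ?_⟩
      rw [e t h4]
      rw [mem_ofPred_eq] at h5
      linarith
  have h3 := hj.target_mem.2
  rw [e t₀ ht₀] at h3
  rcases le_total (l (W v)) (l (W v')) with h6 | h6
  · refine ⟨v', hv', ?_⟩
    have := key 1 ⟨zero_le_one, le_rfl⟩ (by nlinarith only [ht₀.2, h3, h6])
    rwa [AffineMap.lineMap_apply_one] at this
  · refine ⟨v, hv, ?_⟩
    have := key 0 ⟨le_rfl, zero_le_one⟩ (by nlinarith only [ht₀.1, h3, h6])
    rwa [AffineMap.lineMap_apply_zero] at this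

/-- H2. Hint: apply `h` with a norming functional of `W x` (`exists_dual_vector''`). -/
theorem HP.norm_le {C B : Set ℂ} {W : ℂ → X} {δ c : ℝ} (h : HP C B W δ)
    (hB : ∀ b ∈ B, ‖W b‖ ≤ c) {x : ℂ} (hx : x ∈ C) : ‖W x‖ ≤ c + δ := by
  obtain ⟨g, g1, g2⟩ := exists_dual_vector'' ℝ (W x)
  obtain ⟨b, hb, hj⟩ := h x hx g g1
  have h1 := hj.target_mem.2
  have h2 : g (W b) ≤ ‖W b‖ :=
    (le_abs_self _).trans ((g.le_opNorm _).trans (mul_le_of_le_one_left (norm_nonneg _) g1))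
  have h3 : g (W x) = ‖W x‖ := g2
  linarith [hB b hb]

/-- H3. Hint: the convex hull of `v '' A` is compact; if it misses `closedBall x δ`, separate
(`geometric_hahn_banach_compact_closed`) and normalise the functional. -/
theorem hull_approx {ι : Type} [Fintype ι] (v : ι → X) (A : Set ι) (x : X) {δ : ℝ} (hδ : 0 ≤ δ)
    (h : ∀ l : X →L[ℝ] ℝ, ‖l‖ ≤ 1 → ∃ i ∈ A, l x - δ ≤ l (v i)) :
    ∃ p : ι → ℝ, (∀ i, 0 ≤ p i) ∧ ∑ i, p i = 1 ∧ (∀ i, p i ≠ 0 → i ∈ A) ∧
      ‖∑ i, p i • v i - x‖ ≤ δ := by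
  classical
  by_contra hn
  have hS : Convex ℝ (stdSimplex ℝ ι ∩ {p | ∀ i, i ∉ A → p i = 0}) :=
    (convex_stdSimplex ℝ ι).inter fun p hp q hq a b _ _ _ i hi => by
      simp [hp i hi, hq i hi]
  have hK : IsCompact (stdSimplex ℝ ι ∩ {p | ∀ i, i ∉ A → p i = 0}) := by
    refine (isCompact_stdSimplex ℝ ι).inter_right ?_
    simp only [ofPred_forall]
    exact isClosed_iInter fun i => isClosed_iInter fun _ =>
      isClosed_eq (continuous_apply i) continuous_const
  obtain ⟨f, u, w, h1, h2, h3⟩ := geometric_hahn_banach_compact_closed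
    (hS.linear_image (Fintype.linearCombination ℝ v))
    (hK.image (Fintype.linearCombination ℝ v).continuous_of_finiteDimensional)
    (convex_closedBall x δ) Metric.isClosed_closedBall (by
      rw [disjoint_left]
      rintro _ ⟨p, ⟨hp, hq⟩, rfl⟩ hm
      exact hn ⟨p, hp.1, hp.2, fun i hi => not_not.1 fun g => hi (hq i g),
        mem_closedBall_iff_norm.1 hm⟩)
  obtain ⟨i, hi, h4⟩ := h (‖f‖⁻¹ • f) (by
    rw [norm_smul, norm_inv, norm_norm]
    exact inv_mul_le_one_of_le₀ le_rfl (norm_nonneg f))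
  have h5 : f x - δ * ‖f‖ ≤ f (v i) := by
    rcases (norm_nonneg f).eq_or_lt with h0 | h0
    · rw [norm_eq_zero.1 h0.symm]
      simp
    · simp only [smul_apply, smul_eq_mul] at h4
      have := mul_le_mul_of_nonneg_left h4 h0.le
      rwa [mul_sub, mul_inv_cancel_left₀ h0.ne', mul_inv_cancel_left₀ h0.ne', mul_comm] at this
  have h6 : f (v i) < u := h1 _ ⟨Pi.single i 1, ⟨single_mem_stdSimplex ℝ i, fun j hj =>
    Pi.single_eq_of_ne (fun g : j = i => hj (g ▸ hi)) _⟩, by simp⟩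
  have h7 : ‖δ • f‖ ≤ f x - w := by
    refine ContinuousLinearMap.opNorm_le_of_unit_norm
      (sub_nonneg.2 (h3 x (Metric.mem_closedBall_self hδ)).le) fun y hy => ?_
    have a1 := h3 (x + δ • y) (by
      rw [mem_closedBall_iff_norm, add_sub_cancel_left, norm_smul, hy, mul_one,
        Real.norm_of_nonneg hδ])
    have a2 := h3 (x - δ • y) (by
      rw [mem_closedBall_iff_norm, sub_sub_cancel_left, norm_neg, norm_smul, hy, mul_one,
        Real.norm_of_nonneg hδ])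
    rw [map_add, map_smul] at a1
    rw [map_sub, map_smul] at a2
    rw [smul_apply, Real.norm_eq_abs, abs_le]
    constructor <;> linarith only [a1, a2]
  rw [norm_smul, Real.norm_of_nonneg hδ] at h7
  linarith

/-- H4. A disc is not covered by finitely many lines. Hint: along `t ↦ c + t + t ^ 2 * I` each
determinant is a non-zero polynomial in `t`, so it has finitely many zeros. -/
theorem avoid_lines {ι : Type} (s : Finset ι) (p v : ι → ℂ) (hv : ∀ i ∈ s, v i ≠ 0) (c : ℂ)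
    {ε : ℝ} (hε : 0 < ε) : ∃ z : ℂ, ‖z - c‖ ≤ ε ∧ ∀ i ∈ s, det2 (v i) (z - p i) ≠ 0 := by
  have hd : Dense (⋂ i ∈ (s : Set ι), {z : ℂ | det2 (v i) (z - p i) ≠ 0}) := by
    refine dense_biInter_of_isOpen (fun i _ => ?_) s.countable_toSet fun i hi => ?_
    · refine isOpen_ne_fun ?_ continuous_const
      unfold det2
      fun_prop
    · refine Metric.dense_iff.2 fun z r hr => ?_
      by_cases h0 : det2 (v i) (z - p i) = 0
      · have n0 : 0 < ‖v i‖ := norm_pos_iff.2 (hv i hi)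
        have t0 : 0 < r / (2 * ‖v i‖) := by positivity
        refine ⟨z + (r / (2 * ‖v i‖) : ℝ) * (Complex.I * v i), ?_, ?_⟩
        · rw [mem_ball_iff_norm, add_sub_cancel_left, norm_mul, norm_mul, Complex.norm_I, one_mul,
            Complex.norm_real, Real.norm_of_nonneg t0.le, div_mul_eq_mul_div,
            mul_div_mul_right _ _ n0.ne']
          linarith
        · have e : det2 (v i) (z + (r / (2 * ‖v i‖) : ℝ) * (Complex.I * v i) - p i) =
              det2 (v i) (z - p i) + r / (2 * ‖v i‖) * Complex.normSq (v i) := by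
            generalize r / (2 * ‖v i‖) = t
            simp only [det2, Complex.normSq_apply, Complex.sub_re, Complex.sub_im, Complex.add_re,
              Complex.add_im, Complex.mul_re, Complex.mul_im, Complex.ofReal_re, Complex.ofReal_im,
              Complex.I_re, Complex.I_im]
            ring
          rw [mem_ofPred_eq, e, h0, zero_add]
          exact (mul_pos t0 (Complex.normSq_pos.2 (hv i hi))).ne'
      · exact ⟨z, Metric.mem_ball_self hr, h0⟩
  obtain ⟨z, h1, h2⟩ := Metric.dense_iff.1 hd c ε hε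
  exact ⟨z, (mem_ball_iff_norm.1 h1).le, fun i hi => mem_iInter₂.1 h2 i hi⟩

/-- H5. General position. Hint: induction over a finset `s` of moved points, the properties being
stated for indices in `B ∪ s`; the new point avoids the lines through two different old points and
the vertical lines through the old points (`avoid_lines`). -/
theorem generic {ι : Type} [Fintype ι] (c : ι → ℂ) (B : Set ι) (hB : InjOn c B) {ε : ℝ}
    (hε : 0 < ε) :
    ∃ T : ι → ℂ, (∀ b ∈ B, T b = c b) ∧ (∀ a, ‖T a - c a‖ ≤ ε) ∧ Function.Injective T ∧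
      (∀ a, a ∉ B → ∀ b, b ≠ a → (T a).re ≠ (T b).re) ∧
      ∀ a, a ∉ B → ∀ b d, b ≠ a → d ≠ a → d ≠ b → det2 (T b - T a) (T d - T a) ≠ 0 := by
  classical
  have key : ∀ s : Finset ι, (∀ a ∈ s, a ∉ B) → ∃ T : ι → ℂ, (∀ b ∈ B, T b = c b) ∧
      (∀ a, ‖T a - c a‖ ≤ ε) ∧ InjOn T (B ∪ s) ∧
      (∀ a ∈ s, ∀ b ∈ B ∪ s, b ≠ a → (T a).re ≠ (T b).re) ∧
      ∀ a ∈ s, ∀ b ∈ B ∪ s, ∀ d ∈ B ∪ s, b ≠ a → d ≠ a → d ≠ b →
        det2 (T b - T a) (T d - T a) ≠ 0 := by
    intro s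
    induction s using Finset.induction_on with
    | empty => exact fun _ => ⟨c, fun _ _ => rfl, fun a => by simp [hε.le], by simpa only [Finset.coe_empty, union_empty] using hB,
        by simp only [Finset.notMem_empty, Finset.coe_empty, union_empty, ne_eq, IsEmpty.forall_iff, implies_true], by simp only [Finset.notMem_empty, Finset.coe_empty, union_empty, ne_eq, IsEmpty.forall_iff, implies_true]⟩
    | insert a₀ s ha₀ ih =>
      intro hs
      obtain ⟨T, t1, t2, t3, t4, t5⟩ := ih fun a ha => hs a (Finset.mem_insert_of_mem ha)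
      obtain ⟨z, z1, z2⟩ := avoid_lines (Finset.univ : Finset (ι × ι)) (fun q => T q.1)
        (fun q => if T q.2 = T q.1 then Complex.I else T q.2 - T q.1)
        (fun q _ => by
          split_ifs with h
          · exact Complex.I_ne_zero
          · exact sub_ne_zero.2 h) (c a₀) hε
      have H1 : ∀ b, z.re ≠ (T b).re := fun b h => z2 (b, b) (Finset.mem_univ _) (by
        simp [det2, h])
      have H2 : ∀ b ∈ B ∪ s, ∀ d ∈ B ∪ s, d ≠ b → det2 (T d - T b) (z - T b) ≠ 0 :=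
        fun b hb d hd h => by
          have := z2 (b, d) (Finset.mem_univ _)
          rwa [if_neg fun g => h (t3 hd hb g)] at this
      have n0 : ∀ b ∈ B ∪ (s : Set ι), Function.update T a₀ z b = T b := fun b hb =>
        Function.update_of_ne (by
          rintro rfl
          exact hb.elim (hs _ (Finset.mem_insert_self _ _)) ha₀) _ _
      have c0 : ∀ b ∈ B ∪ ((insert a₀ s : Finset ι) : Set ι), b = a₀ ∨ b ∈ B ∪ (s : Set ι) :=
        fun b hb => hb.elim (fun h => Or.inr (Or.inl h)) fun h =>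
          (Finset.mem_insert.1 h).imp_right Or.inr
      refine ⟨Function.update T a₀ z, fun b hb => (n0 b (Or.inl hb)).trans (t1 b hb),
        fun a => ?_, fun a ha b hb h => ?_, fun a ha b hb h => ?_,
        fun a ha b hb d hd h1 h2 h3 => ?_⟩
      · rcases eq_or_ne a a₀ with rfl | h
        · rwa [Function.update_self]
        · rw [Function.update_of_ne h]
          exact t2 a
      · rcases c0 a ha with rfl | ha' <;> rcases c0 b hb with rfl | hb'
        · rfl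
        · rw [Function.update_self, n0 b hb'] at h
          exact (H1 b (congrArg _ h)).elim
        · rw [Function.update_self, n0 a ha'] at h
          exact (H1 a (congrArg _ h.symm)).elim
        · rw [n0 a ha', n0 b hb'] at h
          exact t3 ha' hb' h
      · rcases Finset.mem_insert.1 ha with rfl | ha' <;> rcases c0 b hb with rfl | hb'
        · exact (h rfl).elim
        · rw [Function.update_self, n0 b hb']
          exact H1 b
        · rw [Function.update_self, n0 a (Or.inr ha')]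
          exact (H1 a).symm
        · rw [n0 a (Or.inr ha'), n0 b hb']
          exact t4 a ha' b hb' h
      · rcases Finset.mem_insert.1 ha with rfl | ha'
        · have hb' := (c0 b hb).resolve_left h1
          have hd' := (c0 d hd).resolve_left h2
          rw [Function.update_self, n0 b hb', n0 d hd']
          refine fun g => H2 b hb' d hd' h3 ?_
          simp only [det2, Complex.sub_re, Complex.sub_im] at g ⊢
          linear_combination g
        · rcases c0 b hb with rfl | hb'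
          · have hd' := (c0 d hd).resolve_left h3
            rw [Function.update_self, n0 a (Or.inr ha'), n0 d hd']
            refine fun g => H2 a (Or.inr ha') d hd' h2 ?_
            simp only [det2, Complex.sub_re, Complex.sub_im] at g ⊢
            linear_combination -g
          · rcases c0 d hd with rfl | hd'
            · rw [Function.update_self, n0 a (Or.inr ha'), n0 b hb']
              exact H2 a (Or.inr ha') b hb' h1
            · rw [n0 a (Or.inr ha'), n0 b hb', n0 d hd']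
              exact t5 a ha' b hb' d hd' h1 h2 h3
  obtain ⟨T, t1, t2, t3, t4, t5⟩ := key (Finset.univ.filter fun a => a ∉ B)
    fun a ha => (Finset.mem_filter.1 ha).2
  have m : ∀ a, a ∈ B ∪ ((Finset.univ.filter fun a => a ∉ B : Finset ι) : Set ι) := fun a =>
    (em (a ∈ B)).imp_right fun h => Finset.mem_filter.2 ⟨Finset.mem_univ _, h⟩
  exact ⟨T, t1, t2, fun a b h => t3 (m a) (m b) h,
    fun a ha b => t4 a (Finset.mem_filter.2 ⟨Finset.mem_univ _, ha⟩) b (m b),
    fun a ha b d => t5 a (Finset.mem_filter.2 ⟨Finset.mem_univ _, ha⟩) b (m b) d (m d)⟩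

end Pool.Agent.MP_17e62b_gt.H14

/-! Convex polygons inscribed in the lens `|y| ≤ 1 - x ^ 2`. -/

namespace Pool.Agent.MP_17e62b_gt.H14

open Set Filter Topology Metric
open scoped BigOperators InnerProductSpace

/-- The region between the graphs of `- up - s` and `up + s` over `[-1, 1]`. -/
def reg (up : ℝ → ℝ) (s : ℝ) : Set ℂ := {z | |z.re| ≤ 1 ∧ |z.im| ≤ up z.re + s}

/-- A convex polygon symmetric in the real axis with corners `± 1`. -/
structure Lens where
  up : ℝ → ℝ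
  Vt : Finset ℂ
  c₀ : ℝ
  lip : ∀ x x', |up x - up x'| ≤ 2 * |x - x'|
  conc : ConcaveOn ℝ univ up
  up_one : up 1 = 0
  up_neg : up (-1) = 0
  up_zero : 1 / 2 ≤ up 0
  up_le : ∀ x, |x| ≤ 1 → up x ≤ 1
  one_mem : (1 : ℂ) ∈ Vt
  neg_mem : (-1 : ℂ) ∈ Vt
  vt : ∀ v ∈ Vt, |v.re| ≤ 1 ∧ |v.im| = up v.re
  hull : reg up 0 ⊆ convexHull ℝ (Vt : Set ℂ)
  c_pos : 0 < c₀
  expo : ∀ b ∈ Vt, ∃ n : ℂ, ‖n‖ = 1 ∧ ∀ a ∈ reg up 0, c₀ * ‖a - b‖ ≤ ⟪n, a - b⟫_ℝ

/-- The polygon. -/
def Lens.P (Λ : Lens) : Set ℂ := reg Λ.up 0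

namespace Lens

variable (Λ : Lens)

/-- L1. Concavity between `0` and `± 1`. -/
theorem half_le {x : ℝ} (hx : |x| ≤ 1) : (1 - |x|) / 2 ≤ Λ.up x := by
  have h0 := Λ.up_zero
  rcases le_total 0 x with h | h
  · rw [abs_of_nonneg h] at hx ⊢
    have := Λ.conc.2 (mem_univ 0) (mem_univ 1) (by linarith only [hx] : 0 ≤ 1 - x) h (by ring)
    simp only [smul_eq_mul, mul_zero, mul_one, zero_add, Λ.up_one, add_zero] at this
    nlinarith only [hx, h0, this]
  · rw [abs_of_nonpos h] at hx ⊢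
    have := Λ.conc.2 (mem_univ 0) (mem_univ (-1)) (by linarith only [hx] : 0 ≤ 1 + x)
      (by linarith only [h] : 0 ≤ -x) (by ring)
    simp only [smul_eq_mul, mul_zero, mul_neg, mul_one, neg_neg, zero_add, Λ.up_neg,
      add_zero] at this
    nlinarith only [hx, h0, this]

theorem le_two {x : ℝ} (hx : |x| ≤ 1) : Λ.up x ≤ 2 * (1 - |x|) := by
  rcases le_total 0 x with h | h
  · rw [abs_of_nonneg h] at hx ⊢
    have := Λ.lip x 1
    rw [Λ.up_one, sub_zero, abs_of_nonpos (by linarith : x - 1 ≤ 0)] at this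
    have h2 := le_abs_self (Λ.up x)
    linarith
  · rw [abs_of_nonpos h] at hx ⊢
    have := Λ.lip x (-1)
    rw [Λ.up_neg, sub_zero, abs_of_nonneg (by linarith : 0 ≤ x - -1)] at this
    have h2 := le_abs_self (Λ.up x)
    linarith

theorem continuous_up : Continuous Λ.up := by
  have : LipschitzWith 2 Λ.up := by
    refine LipschitzWith.of_dist_le_mul fun x y => ?_
    simpa only [Real.dist_eq, NNReal.coe_ofNat] using Λ.lip x y
  exact this.continuous

theorem convex_reg (s : ℝ) : Convex ℝ (reg Λ.up s) := by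
  intro z hz w hw a b ha hb hab
  have hre : (a • z + b • w).re = a * z.re + b * w.re := by simp
  have him : (a • z + b • w).im = a * z.im + b * w.im := by simp
  have key : ∀ u v : ℝ, |a * u + b * v| ≤ a * |u| + b * |v| := fun u v => by
    calc |a * u + b * v| ≤ |a * u| + |b * v| := abs_add_le _ _
      _ = a * |u| + b * |v| := by rw [abs_mul, abs_mul, abs_of_nonneg ha, abs_of_nonneg hb]
  refine ⟨?_, ?_⟩
  · rw [hre]
    have h1 := mul_le_mul_of_nonneg_left hz.1 ha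
    have h2 := mul_le_mul_of_nonneg_left hw.1 hb
    have := key z.re w.re
    linarith
  · rw [hre, him]
    have h1 := mul_le_mul_of_nonneg_left hz.2 ha
    have h2 := mul_le_mul_of_nonneg_left hw.2 hb
    have h3 := key z.im w.im
    have h4 := Λ.conc.2 (mem_univ z.re) (mem_univ w.re) ha hb hab
    simp only [smul_eq_mul] at h4
    have h5 : a * s + b * s = s := by rw [← add_mul, hab, one_mul]
    linarith only [h1, h2, h3, h4, h5]

theorem compact_reg (s : ℝ) : IsCompact (reg Λ.up s) := by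
  have hc : IsClosed (reg Λ.up s) := by
    have h1 : IsClosed {z : ℂ | |z.re| ≤ 1} :=
      isClosed_le Complex.continuous_re.abs continuous_const
    have h2 : IsClosed {z : ℂ | |z.im| ≤ Λ.up z.re + s} :=
      isClosed_le Complex.continuous_im.abs
        ((Λ.continuous_up.comp Complex.continuous_re).add continuous_const)
    exact h1.inter h2
  refine (isCompact_closedBall (0 : ℂ) (2 + |s|)).of_isClosed_subset hc fun z hz => ?_
  rw [mem_closedBall, dist_zero_right]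
  have h1 := Complex.norm_le_abs_re_add_abs_im z
  have h2 := Λ.up_le _ hz.1
  have h3 := hz.1
  have h4 := hz.2
  have h5 := le_abs_self s
  linarith

theorem ball_sub {s : ℝ} (hs : 0 ≤ s) : closedBall (0 : ℂ) (1 / 4) ⊆ reg Λ.up s := by
  intro z hz
  rw [mem_closedBall, dist_zero_right] at hz
  have h1 := Complex.abs_re_le_norm z
  have h2 := Complex.abs_im_le_norm z
  have h3 : |z.re| ≤ 1 := by linarith
  have h4 := Λ.half_le h3
  exact ⟨h3, by linarith⟩

theorem nhds_reg {s : ℝ} (hs : 0 ≤ s) : reg Λ.up s ∈ 𝓝 (0 : ℂ) :=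
  mem_of_superset (closedBall_mem_nhds 0 (by norm_num)) (Λ.ball_sub hs)

theorem norm_le {s : ℝ} (hs : s ≤ 1 / 2) {z : ℂ} (hz : z ∈ reg Λ.up s) : ‖z‖ ≤ 2 := by
  have h1 := hz.1
  have h2 := hz.2
  have h3 := Λ.up_le _ h1
  have h4 : |z.im| ≤ 3 / 2 := by linarith
  have h5 : ‖z‖ ^ 2 = |z.re| ^ 2 + |z.im| ^ 2 := by
    rw [Complex.sq_norm, Complex.normSq_apply, sq_abs, sq_abs]; ring
  have h6 := abs_nonneg z.re
  have h7 := abs_nonneg z.im
  refine le_of_not_gt fun h => ?_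
  nlinarith only [hs, h1, h2, h3, h5, h6, h7, h]

theorem vt_mem {v : ℂ} (hv : v ∈ Λ.Vt) : v ∈ Λ.P := ⟨(Λ.vt v hv).1, by simp [(Λ.vt v hv).2]⟩

/-- L2. The frontier. -/
theorem mem_frontier {s : ℝ} {z : ℂ} : z ∈ frontier (reg Λ.up s) ↔
    z ∈ reg Λ.up s ∧ (|z.re| = 1 ∨ |z.im| = Λ.up z.re + s) := by
  have hc : IsClosed (reg Λ.up s) := (Λ.compact_reg s).isClosed
  rw [frontier, hc.closure_eq, Set.mem_sdiff]
  refine and_congr_right fun hz => ⟨fun h => ?_, fun h hi => ?_⟩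
  · by_contra hn
    push Not at hn
    apply h
    have h1 : IsOpen {z : ℂ | |z.re| < 1} :=
      isOpen_lt Complex.continuous_re.abs continuous_const
    have h2 : IsOpen {z : ℂ | |z.im| < Λ.up z.re + s} :=
      isOpen_lt Complex.continuous_im.abs
        ((Λ.continuous_up.comp Complex.continuous_re).add continuous_const)
    refine interior_maximal (fun w hw => ?_) (h1.inter h2)
      ⟨lt_of_le_of_ne hz.1 hn.1, lt_of_le_of_ne hz.2 hn.2⟩
    exact ⟨le_of_lt hw.1, le_of_lt hw.2⟩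
  · rw [mem_interior_iff_mem_nhds, Metric.mem_nhds_iff] at hi
    obtain ⟨ε, hε, hb⟩ := hi
    have sg : ∀ u : ℝ, ∃ e : ℝ, |e| = ε / 2 ∧ |u + e| = |u| + ε / 2 := fun u => by
      rcases le_total 0 u with h | h
      · exact ⟨ε / 2, abs_of_pos (by linarith), by
          rw [abs_of_nonneg h, abs_of_nonneg (by linarith only [hε, h])]⟩
      · exact ⟨-(ε / 2), by rw [abs_neg, abs_of_pos (by linarith)], by
          rw [abs_of_nonpos h, abs_of_nonpos (by linarith)]; ring⟩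
    rcases h with h | h
    · obtain ⟨e, he, he'⟩ := sg z.re
      have hm : z + (e : ℂ) ∈ ball z ε := by
        rw [mem_ball, dist_eq_norm, add_sub_cancel_left, Complex.norm_real, Real.norm_eq_abs, he]
        linarith only [hε]
      have := (hb hm).1
      simp only [Complex.add_re, Complex.ofReal_re] at this
      linarith
    · obtain ⟨e, he, he'⟩ := sg z.im
      have hm : z + (e : ℂ) * Complex.I ∈ ball z ε := by
        rw [mem_ball, dist_eq_norm, add_sub_cancel_left, norm_mul, Complex.norm_I, mul_one,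
          Complex.norm_real, Real.norm_eq_abs, he]
        linarith only [hε]
      have := (hb hm).2
      simp only [Complex.add_re, Complex.add_im, Complex.mul_re, Complex.mul_im,
        Complex.ofReal_re, Complex.ofReal_im, Complex.I_re, Complex.I_im, mul_zero, mul_one,
        sub_zero, add_zero] at this
      linarith only [hε, h, he', this]

/-- L3. Hint: `Λ.conc` between `x` and `0`. -/
theorem shrink {s : ℝ} (hs : 0 ≤ s) (hs' : s ≤ 1 / 4) {z : ℂ} (hz : z ∈ reg Λ.up s) :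
    (1 - 2 * s) • z ∈ Λ.P := by
  have ha : 0 ≤ 1 - 2 * s := by linarith
  have hre : ((1 - 2 * s) • z).re = (1 - 2 * s) * z.re := by simp
  have him : ((1 - 2 * s) • z).im = (1 - 2 * s) * z.im := by simp
  refine ⟨?_, ?_⟩
  · rw [hre, abs_mul, abs_of_nonneg ha]
    have := hz.1
    have h2 := abs_nonneg z.re
    nlinarith only [hs, this, h2]
  · rw [hre, him, abs_mul, abs_of_nonneg ha, add_zero]
    have h4 := Λ.conc.2 (mem_univ z.re) (mem_univ 0) ha (by linarith : 0 ≤ 2 * s) (by ring)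
    simp only [smul_eq_mul, mul_zero, add_zero] at h4
    have h1 := mul_le_mul_of_nonneg_left hz.2 ha
    have h0 := mul_le_mul_of_nonneg_left Λ.up_zero hs
    nlinarith only [hs, h4, h1, h0]

end Lens

/-- L4. Rescaling between two close convex bodies moves points little. Hint:
`gaugeRescaleHomeomorph`, `image_gaugeRescaleHomeomorph_closure`, `gauge_gaugeRescale`,
`gauge_eq_one_iff_mem_frontier`; `(1 - c) * gauge A z ≤ gauge B z ≤ gauge A z`. -/
theorem rescale_near {A B : Set ℂ} (hA : IsCompact A) (hAc : Convex ℝ A) (hA0 : A ∈ 𝓝 (0 : ℂ))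
    (hB : IsCompact B) (hBc : Convex ℝ B) (hAB : A ⊆ B) {c : ℝ} (hc : 0 ≤ c) (hc1 : c < 1)
    (hBA : ∀ z ∈ B, (1 - c) • z ∈ A) :
    ∃ j : ℂ ≃ₜ ℂ, j '' B = A ∧ j '' frontier B = frontier A ∧ ∀ z, ‖j z - z‖ ≤ c * ‖z‖ := by
  have hB0 : B ∈ 𝓝 (0 : ℂ) := mem_of_superset hA0 hAB
  have hAb : Bornology.IsVonNBounded ℝ A :=
    (NormedSpace.isVonNBounded_iff ℝ).2 hA.isBounded
  have hBb : Bornology.IsVonNBounded ℝ B :=
    (NormedSpace.isVonNBounded_iff ℝ).2 hB.isBounded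
  have hAa : Absorbent ℝ A := absorbent_nhds_zero hA0
  have hBa : Absorbent ℝ B := absorbent_nhds_zero hB0
  have himg : gaugeRescaleHomeomorph B A hBc hB0 hBb hAc hA0 hAb '' B = A := by
    have := image_gaugeRescaleHomeomorph_closure hBc hB0 hBb hAc hA0 hAb
    rwa [hA.isClosed.closure_eq, hB.isClosed.closure_eq] at this
  refine ⟨gaugeRescaleHomeomorph B A hBc hB0 hBb hAc hA0 hAb, himg, ?_, fun z => ?_⟩
  · rw [Homeomorph.image_frontier, himg]
  · change ‖gaugeRescale B A z - z‖ ≤ c * ‖z‖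
    rcases eq_or_ne z 0 with rfl | hz
    · simp
    have hpos : 0 < gauge A z := (gauge_pos hAa hAb).2 hz
    have hposB : 0 < gauge B z := (gauge_pos hBa hBb).2 hz
    have h1 : gauge B z ≤ gauge A z := gauge_mono hAa hAB z
    have h2 : (1 - c) * gauge A z ≤ gauge B z := by
      have hm : (gauge B z)⁻¹ • z ∈ B := by
        refine hB.isClosed.closure_subset ((gauge_le_one_iff_mem_closure hBc hB0).1 ?_)
        rw [gauge_smul_of_nonneg (inv_nonneg.2 hposB.le), smul_eq_mul, inv_mul_cancel₀ hposB.ne']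
      have h3 := gauge_le_one_of_mem (hBA _ hm)
      rw [gauge_smul_of_nonneg (by linarith only [hc1] : 0 ≤ 1 - c),
        gauge_smul_of_nonneg (inv_nonneg.2 hposB.le), smul_eq_mul, smul_eq_mul] at h3
      have h4 : (1 - c) * gauge A z =
          (1 - c) * ((gauge B z)⁻¹ * gauge A z) * gauge B z := by
        field_simp
      rw [h4]
      exact mul_le_of_le_one_left hposB.le h3
    have h5 : gaugeRescale B A z - z = (gauge B z / gauge A z - 1) • z := by
      rw [gaugeRescale_def, sub_smul, one_smul]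
    rw [h5, norm_smul, Real.norm_eq_abs]
    refine mul_le_mul_of_nonneg_right ?_ (norm_nonneg z)
    have h6 : gauge B z / gauge A z ≤ 1 := (div_le_one hpos).2 h1
    have h7 : 1 - c ≤ gauge B z / gauge A z := (le_div_iff₀ hpos).2 h2
    rw [abs_le]
    constructor <;> linarith only [h7, hc, h6]

/-- L5. Radial rescaling onto the unit disc. -/
theorem rescale_disc {A : Set ℂ} (hA : IsCompact A) (hAc : Convex ℝ A) (hA0 : A ∈ 𝓝 (0 : ℂ)) :
    ∃ j : ℂ ≃ₜ ℂ, j '' A = closedBall 0 1 ∧ j '' interior A = ball 0 1 ∧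
      ∀ y ∈ frontier A, y ≠ 0 ∧ j y = ‖y‖⁻¹ • y := by
  have hAb : Bornology.IsVonNBounded ℝ A :=
    (NormedSpace.isVonNBounded_iff ℝ).2 hA.isBounded
  have hDc : Convex ℝ (closedBall (0 : ℂ) 1) := convex_closedBall 0 1
  have hD0 : closedBall (0 : ℂ) 1 ∈ 𝓝 (0 : ℂ) := closedBall_mem_nhds 0 one_pos
  have hDb : Bornology.IsVonNBounded ℝ (closedBall (0 : ℂ) 1) :=
    (NormedSpace.isVonNBounded_iff ℝ).2 isBounded_closedBall
  refine ⟨gaugeRescaleHomeomorph A _ hAc hA0 hAb hDc hD0 hDb, ?_, ?_, fun y hy => ?_⟩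
  · have := image_gaugeRescaleHomeomorph_closure hAc hA0 hAb hDc hD0 hDb
    rwa [hA.isClosed.closure_eq, isClosed_closedBall.closure_eq] at this
  · rw [image_gaugeRescaleHomeomorph_interior, interior_closedBall _ one_ne_zero]
  · have h1 : gauge A y = 1 := (gauge_eq_one_iff_mem_frontier hAc hA0).2 hy
    refine ⟨fun h => ?_, ?_⟩
    · rw [h, gauge_zero] at h1
      exact zero_ne_one h1
    · change gaugeRescale A (closedBall 0 1) y = _
      rw [gaugeRescale_def, h1, gauge_closedBall zero_le_one, div_one, one_div]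

/-- The abscissae. -/
noncomputable def tk (m k : ℕ) : ℝ := -1 + 2 * k / m

/-- The chord of the parabola over `[tk m k, tk m (k + 1)]`. -/
noncomputable def chord (m k : ℕ) (x : ℝ) : ℝ :=
  1 - (tk m k + tk m (k + 1)) * x + tk m k * tk m (k + 1)

/-- The minimum of the chords. -/
noncomputable def upm (m : ℕ) (x : ℝ) : ℝ :=
  (Finset.range (m + 2)).inf' ⟨0, by simp only [Finset.mem_range, lt_add_iff_pos_left, add_pos_iff, Order.lt_two_iff, zero_le, or_true]⟩ fun k => chord (m + 2) k x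

/-- The vertex over `tk`, with sign `e`. -/
noncomputable def vk (m k : ℕ) (e : ℝ) : ℂ := ⟨tk m k, e * (1 - tk m k ^ 2)⟩

theorem upm_eq_mono (n : ℕ) {j k : ℕ} (h : j ≤ k) : tk n j ≤ tk n k := by
  have h1 : (j : ℝ) ≤ k := by exact_mod_cast h
  unfold tk
  gcongr

/-- L6. Hint: `chord m k x - (1 - x ^ 2) = (x - tk m k) (x - tk m (k + 1))`; this is `≤ 0` for the
given `k` and `≥ 0` for the others, or both chords meet at a common end. -/
theorem upm_eq {m k : ℕ} (hk : k < m + 2) {x : ℝ} (h1 : tk (m + 2) k ≤ x)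
    (h2 : x ≤ tk (m + 2) (k + 1)) : upm m x = chord (m + 2) k x := by
  refine le_antisymm (Finset.inf'_le _ (Finset.mem_range.2 hk)) (Finset.le_inf' _ _ fun j _ => ?_)
  have h3 := mul_nonpos_of_nonneg_of_nonpos (sub_nonneg.2 h1) (sub_nonpos.2 h2)
  have h4 := upm_eq_mono (m + 2) (Nat.le_succ j)
  rcases lt_trichotomy j k with h | rfl | h
  · have h5 := upm_eq_mono (m + 2) (Nat.succ_le_of_lt h)
    have h6 := mul_nonneg (sub_nonneg.2 (h4.trans (h5.trans h1))) (sub_nonneg.2 (h5.trans h1))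
    unfold chord
    linarith only [h3, h6]
  · exact le_rfl
  · have h5 := upm_eq_mono (m + 2) (Nat.succ_le_of_lt h)
    have h6 := mul_nonneg_of_nonpos_of_nonpos (sub_nonpos.2 (h2.trans h5))
      (sub_nonpos.2 (h2.trans (h5.trans h4)))
    unfold chord
    linarith only [h3, h6]

theorem exists_lens_zero (n : ℕ) : tk n 0 = -1 := by simp [tk]

theorem exists_lens_last (m : ℕ) : tk (m + 2) (m + 2) = 1 := by
  have h : ((m + 2 : ℕ) : ℝ) ≠ 0 := by positivity
  rw [tk, mul_div_assoc, div_self h]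
  norm_num

theorem exists_lens_succ (n k : ℕ) : tk n (k + 1) = tk n k + 2 / n := by
  unfold tk
  push_cast
  ring

theorem exists_lens_abs {m k : ℕ} (hk : k ≤ m + 2) : |tk (m + 2) k| ≤ 1 :=
  abs_le.2 ⟨exists_lens_zero (m + 2) ▸ upm_eq_mono _ (Nat.zero_le k),
    exists_lens_last m ▸ upm_eq_mono _ hk⟩

theorem exists_lens_cover (m : ℕ) {x : ℝ} (hx : |x| ≤ 1) :
    ∃ k < m + 2, ∃ s ∈ Icc (0 : ℝ) 1, x = tk (m + 2) k + s * (2 / (m + 2 : ℕ)) := by
  have key : ∀ j, x ≤ tk (m + 2) (j + 1) →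
      ∃ k ≤ j, tk (m + 2) k ≤ x ∧ x ≤ tk (m + 2) (k + 1) := fun j => by
    induction j with
    | zero => exact fun h => ⟨0, le_rfl, by rw [exists_lens_zero]; exact (abs_le.1 hx).1, h⟩
    | succ j ih =>
      intro h
      rcases le_total x (tk (m + 2) (j + 1)) with h' | h'
      · obtain ⟨k, hk, h2⟩ := ih h'
        exact ⟨k, hk.trans (Nat.le_succ j), h2⟩
      · exact ⟨j + 1, le_rfl, h', h⟩
  obtain ⟨k, hk, h1, h2⟩ := key (m + 1) (by rw [exists_lens_last]; exact (abs_le.1 hx).2)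
  have h0 : (0 : ℝ) < 2 / (m + 2 : ℕ) := by positivity
  rw [exists_lens_succ] at h2
  refine ⟨k, by omega, (x - tk (m + 2) k) / (2 / (m + 2 : ℕ)), ⟨div_nonneg (by linarith only [h1]) h0.le,
    (div_le_one h0).2 (by linarith only [h2])⟩, ?_⟩
  rw [div_mul_cancel₀ _ h0.ne']
  ring

theorem exists_lens_up {m k : ℕ} (hk : k < m + 2) {s : ℝ} (hs : s ∈ Icc (0 : ℝ) 1) :
    upm m (tk (m + 2) k + s * (2 / (m + 2 : ℕ))) =
      (1 - s) * (1 - tk (m + 2) k ^ 2) + s * (1 - tk (m + 2) (k + 1) ^ 2) := by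
  have h0 : (0 : ℝ) < 2 / (m + 2 : ℕ) := by positivity
  rw [upm_eq hk (le_add_of_nonneg_right (mul_nonneg hs.1 h0.le)) (by
    rw [exists_lens_succ]
    exact add_le_add_right (mul_le_of_le_one_left h0.le hs.2) _), chord, exists_lens_succ]
  ring

theorem exists_lens_side {m k : ℕ} (hk : k < m + 2) (e : ℝ) {s : ℝ} (hs : s ∈ Icc (0 : ℝ) 1) :
    AffineMap.lineMap (vk (m + 2) k e) (vk (m + 2) (k + 1) e) s =
      (⟨tk (m + 2) k + s * (2 / (m + 2 : ℕ)),
        e * upm m (tk (m + 2) k + s * (2 / (m + 2 : ℕ)))⟩ : ℂ) := by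
  rw [exists_lens_up hk hs, AffineMap.lineMap_apply_module]
  refine Complex.ext ?_ ?_
  · simp only [vk, Complex.add_re, Complex.smul_re, smul_eq_mul, exists_lens_succ]
    ring
  · simp only [vk, Complex.add_im, Complex.smul_im, smul_eq_mul]
    ring

theorem exists_lens_tk {m k : ℕ} (hk : k ≤ m + 2) :
    upm m (tk (m + 2) k) = 1 - tk (m + 2) k ^ 2 := by
  rcases k with _ | k
  · have := exists_lens_up (m := m) (k := 0) (by omega) (left_mem_Icc.2 zero_le_one)
    rw [zero_mul, add_zero] at this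
    rw [this]
    ring
  · have := exists_lens_up (m := m) (k := k) (by omega) (right_mem_Icc.2 zero_le_one)
    rw [one_mul, ← exists_lens_succ] at this
    rw [this]
    ring

theorem exists_lens_le (m : ℕ) {x : ℝ} (hx : |x| ≤ 1) : upm m x ≤ 1 - x ^ 2 := by
  obtain ⟨k, hk, s, hs, rfl⟩ := exists_lens_cover m hx
  rw [exists_lens_up hk hs, exists_lens_succ]
  generalize (2 : ℝ) / (m + 2 : ℕ) = h
  linarith only [mul_nonneg (mul_nonneg hs.1 (sub_nonneg.2 hs.2)) (sq_nonneg h)]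

theorem exists_lens_expo (m k : ℕ) {e : ℝ} (he : e = 1 ∨ e = -1) :
    ∃ n : ℂ, ‖n‖ = 1 ∧ ∀ a : ℂ, |a.im| ≤ 1 - a.re ^ 2 → a ≠ vk (m + 2) k e →
      0 < ⟪n, a - vk (m + 2) k e⟫_ℝ := by
  have he2 : e * e = 1 := by rcases he with rfl | rfl <;> norm_num
  have hea : |e| = 1 := by rcases he with rfl | rfl <;> norm_num
  generalize hv : vk (m + 2) k e = b
  generalize ht : tk (m + 2) k = t
  have h1 : b.re = t := by rw [← hv, ← ht, vk]
  have h2 : b.im = e * (1 - t ^ 2) := by rw [← hv, ← ht, vk]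
  have hn : (⟨-2 * t, -e⟩ : ℂ) ≠ 0 := fun h => by
    have := congrArg Complex.im h
    simp only [Complex.zero_im, neg_eq_zero] at this
    rw [this] at he2
    norm_num at he2
  refine ⟨‖(⟨-2 * t, -e⟩ : ℂ)‖⁻¹ • (⟨-2 * t, -e⟩ : ℂ), norm_smul_inv_norm hn, fun a ha hab => ?_⟩
  rw [real_inner_smul_left]
  refine mul_pos (inv_pos.2 (norm_pos_iff.2 hn)) ?_
  have h3 : e * a.im ≤ 1 - a.re ^ 2 := (le_abs_self _).trans (by rwa [abs_mul, hea, one_mul])
  have h4 : ⟪(⟨-2 * t, -e⟩ : ℂ), a - b⟫_ℝ = (a.re - t) ^ 2 + (1 - a.re ^ 2 - e * a.im) := by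
    rw [Complex.inner]
    simp only [Complex.mul_re, Complex.sub_re, Complex.sub_im, Complex.conj_re, Complex.conj_im,
      h1, h2]
    linear_combination (1 - t ^ 2) * he2
  rw [h4]
  by_contra hc
  have h5 : (a.re - t) ^ 2 = 0 := le_antisymm (by linarith) (sq_nonneg _)
  have h6 : a.re = t := sub_eq_zero.1 (pow_eq_zero_iff two_ne_zero |>.1 h5)
  refine hab (Complex.ext (h6.trans h1.symm) ?_)
  have h7 : e * a.im = 1 - t ^ 2 := by rw [← h6]; linarith only [h3, hc, h5]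
  rw [h2, ← h7, ← mul_assoc, he2, one_mul]

/-- L7. Hint: `Vt` is the set of `vk (m + 2) k (± 1)`, `k ≤ m + 2`. The region lies in
`|y| ≤ 1 - x ^ 2`. At `b = vk _ k e` the vector `n = (- 2 t, - e)` has
`⟪n, a - b⟫ ≥ (a.re - t) ^ 2` there, with equality to zero only at `a = b`; so a constant `c₀`
works for the finitely many pairs of vertices, and `{a | c₀ ‖a - b‖ ≤ ⟪n, a - b⟫}` is convex. -/
theorem exists_lens (m : ℕ) : ∃ Λ : Lens, Λ.up = upm m ∧
    ∀ v, v ∈ Λ.Vt ↔ ∃ k ≤ m + 2, v = vk (m + 2) k 1 ∨ v = vk (m + 2) k (-1) := by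
  classical
  obtain ⟨V, hV⟩ : ∃ V : Finset ℂ,
      ∀ v, v ∈ V ↔ ∃ k ≤ m + 2, v = vk (m + 2) k 1 ∨ v = vk (m + 2) k (-1) :=
    ⟨((Finset.range (m + 3)).image fun k => vk (m + 2) k 1) ∪
      (Finset.range (m + 3)).image fun k => vk (m + 2) k (-1), fun v => by
      simp only [Finset.mem_union, Finset.mem_image, Finset.mem_range, Nat.lt_succ_iff,
        and_or_left, exists_or, eq_comm]⟩
  have hvt : ∀ v ∈ V, |v.re| ≤ 1 ∧ |v.im| = 1 - v.re ^ 2 ∧ upm m v.re = 1 - v.re ^ 2 := by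
    intro v hv
    obtain ⟨k, hk, h⟩ := (hV v).1 hv
    have h1 := exists_lens_abs hk
    have h2 : 0 ≤ 1 - tk (m + 2) k ^ 2 := sub_nonneg.2 ((sq_le_one_iff_abs_le_one _).2 h1)
    rcases h with rfl | rfl
    · exact ⟨h1, by simp only [vk, one_mul, abs_of_nonneg h2], exists_lens_tk hk⟩
    · exact ⟨h1, by simp only [vk, neg_one_mul, abs_neg, abs_of_nonneg h2], exists_lens_tk hk⟩
  have hhull : reg (upm m) 0 ⊆ convexHull ℝ (V : Set ℂ) := by
    rintro z ⟨h1, h2⟩
    obtain ⟨k, hk, s, hs, hx⟩ := exists_lens_cover m h1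
    have hc := convex_convexHull ℝ (V : Set ℂ)
    have h3 : ∀ e : ℝ, e = 1 ∨ e = -1 →
        (⟨z.re, e * upm m z.re⟩ : ℂ) ∈ convexHull ℝ (V : Set ℂ) := fun e he => by
      rw [hx, ← exists_lens_side hk e hs]
      refine hc.lineMap_mem (subset_convexHull ℝ _ ((hV _).2 ⟨k, hk.le, ?_⟩))
        (subset_convexHull ℝ _ ((hV _).2 ⟨k + 1, hk, ?_⟩)) hs <;>
      exact he.imp (fun h => by rw [h]) fun h => by rw [h]
    rw [add_zero, abs_le] at h2
    obtain ⟨a, b, ha, hb, hab, hy⟩ : z.im ∈ segment ℝ (-upm m z.re) (upm m z.re) := by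
      rw [segment_eq_Icc (h2.1.trans h2.2)]
      exact h2
    convert hc (h3 (-1) (Or.inr rfl)) (h3 1 (Or.inl rfl)) ha hb hab using 1
    refine Complex.ext ?_ ?_
    · simp only [Complex.add_re, Complex.smul_re, smul_eq_mul]
      rw [← add_mul, hab, one_mul]
    · simp only [Complex.add_im, Complex.smul_im, smul_eq_mul, neg_one_mul, one_mul]
      exact hy.symm
  have hev : ∀ᶠ c in 𝓝[>] (0 : ℝ), ∀ b ∈ V, ∃ n : ℂ, ‖n‖ = 1 ∧
      ∀ a ∈ V, c * ‖a - b‖ ≤ ⟪n, a - b⟫_ℝ := by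
    refine (eventually_all_finset V).2 fun b hb => ?_
    obtain ⟨n, hn, h⟩ : ∃ n : ℂ, ‖n‖ = 1 ∧ ∀ a : ℂ, |a.im| ≤ 1 - a.re ^ 2 → a ≠ b →
        0 < ⟪n, a - b⟫_ℝ := by
      obtain ⟨k, -, rfl | rfl⟩ := (hV b).1 hb
      · exact exists_lens_expo m k (Or.inl rfl)
      · exact exists_lens_expo m k (Or.inr rfl)
    refine ((eventually_all_finset V).2 fun a ha => ?_).mono fun c hc => ⟨n, hn, hc⟩
    rcases eq_or_ne a b with rfl | hab
    · exact Eventually.of_forall fun c => by simp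
    · have h1 : Tendsto (fun c : ℝ => c * ‖a - b‖) (𝓝 0) (𝓝 (0 * ‖a - b‖)) :=
        tendsto_id.mul_const _
      rw [zero_mul] at h1
      exact (h1.eventually_le_const (h a (hvt a ha).2.1.le hab)).filter_mono nhdsWithin_le_nhds
  obtain ⟨c, hc, hc0⟩ := (hev.and self_mem_nhdsWithin).exists
  have hc0' : 0 < c := hc0
  have hex : ∀ x, ∃ k < m + 2, upm m x = chord (m + 2) k x := fun x => by
    obtain ⟨k, hk, h⟩ := Finset.exists_mem_eq_inf' (s := Finset.range (m + 2)) ⟨0, by simp only [Finset.mem_range, lt_add_iff_pos_left, add_pos_iff, Order.lt_two_iff, zero_le, or_true]⟩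
      fun k => chord (m + 2) k x
    exact ⟨k, Finset.mem_range.1 hk, h⟩
  have hle : ∀ x, ∀ k < m + 2, upm m x ≤ chord (m + 2) k x := fun x k hk =>
    Finset.inf'_le _ (Finset.mem_range.2 hk)
  have hlip : ∀ x x', upm m x - upm m x' ≤ 2 * |x - x'| := fun x x' => by
    obtain ⟨k, hk, h⟩ := hex x'
    have h1 := hle x k hk
    have h2 : |tk (m + 2) k + tk (m + 2) (k + 1)| ≤ 2 :=
      (abs_add_le _ _).trans (by linarith only [exists_lens_abs hk.le, exists_lens_abs (m := m) hk])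
    have h3 := mul_le_mul_of_nonneg_right h2 (abs_nonneg (x - x'))
    have h4 := neg_abs_le ((tk (m + 2) k + tk (m + 2) (k + 1)) * (x - x'))
    rw [abs_mul] at h4
    rw [chord] at h h1
    linarith only [h, h1, h3, h4]
  refine ⟨⟨upm m, V, c, fun x x' => abs_sub_le_iff.2 ⟨hlip x x', abs_sub_comm x x' ▸ hlip x' x⟩,
    ⟨convex_univ, fun x _ y _ a b ha hb hab => ?_⟩, ?_, ?_, ?_,
    fun x hx => (exists_lens_le m hx).trans (sub_le_self _ (sq_nonneg x)),
    (hV _).2 ⟨m + 2, le_rfl, Or.inl ?_⟩, (hV _).2 ⟨0, Nat.zero_le _, Or.inl ?_⟩,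
    fun v hv => ⟨(hvt v hv).1, (hvt v hv).2.1.trans (hvt v hv).2.2.symm⟩, hhull, hc0',
    fun b hb => ?_⟩, rfl, hV⟩
  · obtain ⟨k, hk, h⟩ := hex (a • x + b • y)
    have h1 := mul_le_mul_of_nonneg_left (hle x k hk) ha
    have h2 := mul_le_mul_of_nonneg_left (hle y k hk) hb
    rw [h]
    obtain rfl : b = 1 - a := by linarith only [hab]
    simp only [chord, smul_eq_mul] at h1 h2 ⊢
    linarith only [h1, h2]
  · have := exists_lens_tk (m := m) le_rfl
    rw [exists_lens_last] at this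
    rw [this]
    norm_num
  · have := exists_lens_tk (m := m) (Nat.zero_le _)
    rw [exists_lens_zero] at this
    rw [this]
    norm_num
  · obtain ⟨k, -, h⟩ := hex 0
    have h1 : (2 : ℝ) / (m + 2 : ℕ) ≤ 1 := (div_le_one (by positivity)).2 (by
      push_cast
      linarith [(Nat.cast_nonneg m : (0 : ℝ) ≤ m)])
    have h0 : (0 : ℝ) ≤ 2 / (m + 2 : ℕ) := by positivity
    rw [h, chord, exists_lens_succ]
    generalize (2 : ℝ) / (m + 2 : ℕ) = h at *
    linarith only [sq_nonneg (2 * tk (m + 2) k + h), mul_le_one₀ h1 h0 h1]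
  · refine Complex.ext ?_ ?_ <;> simp [vk, exists_lens_last]
  · refine Complex.ext ?_ ?_ <;> simp only [Complex.neg_re, Complex.one_re, vk, exists_lens_zero, even_two, Even.neg_pow, one_pow, sub_self, mul_zero, Complex.neg_im, Complex.one_im, neg_zero]
  · obtain ⟨n, hn, h⟩ := hc b hb
    refine ⟨n, hn, fun a ha => convexHull_min (t := {a | c * ‖a - b‖ ≤ ⟪n, a - b⟫_ℝ}) h ?_
      (hhull ha)⟩
    intro x hx y hy p q hp hq hpq
    have e : p • x + q • y - b = p • (x - b) + q • (y - b) := by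
      rw [smul_sub, smul_sub, sub_add_sub_comm, ← add_smul, hpq, one_smul]
    have h1 := norm_add_le (p • (x - b)) (q • (y - b))
    rw [norm_smul, norm_smul, Real.norm_of_nonneg hp, Real.norm_of_nonneg hq] at h1
    have h2 := mul_le_mul_of_nonneg_left h1 hc0'.le
    have h3 := mul_le_mul_of_nonneg_left (show c * ‖x - b‖ ≤ ⟪n, x - b⟫_ℝ from hx) hp
    have h4 := mul_le_mul_of_nonneg_left (show c * ‖y - b‖ ≤ ⟪n, y - b⟫_ℝ from hy) hq
    rw [mem_ofPred_eq, e, inner_add_right, real_inner_smul_right, real_inner_smul_right]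
    linarith only [h2, h3, h4]

theorem exists_lens_sides_hat {E : Type} [NormedAddCommGroup E] [NormedSpace ℝ E] {m k : ℕ}
    (hk : k < m + 2) (g : ℕ → E) {s : ℝ} (hs : s ∈ Icc (0 : ℝ) 1) :
    ∑ j ∈ Finset.range (m + 3), max 0 (1 - |(tk (m + 2) k + s * (2 / (m + 2 : ℕ)) + 1) *
      (m + 2 : ℕ) / 2 - j|) • g j = AffineMap.lineMap (g k) (g (k + 1)) s := by
  have h0 : ((m + 2 : ℕ) : ℝ) ≠ 0 := by positivity
  have e : (tk (m + 2) k + s * (2 / (m + 2 : ℕ)) + 1) * (m + 2 : ℕ) / 2 = k + s := by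
    rw [tk]
    field_simp
    ring
  rw [e, Finset.sum_eq_add_of_mem k (k + 1) (Finset.mem_range.2 (by omega))
    (Finset.mem_range.2 (by omega)) (by omega), AffineMap.lineMap_apply_module]
  · rw [add_sub_cancel_left, abs_of_nonneg hs.1, max_eq_right (sub_nonneg.2 hs.2), Nat.cast_succ,
      add_sub_add_left_eq_sub, abs_of_nonpos (sub_nonpos.2 hs.2), neg_sub, sub_sub_cancel,
      max_eq_right hs.1]
  · rintro j - ⟨h1, h2⟩
    rw [max_eq_left (sub_nonpos.2 (le_abs.2 ?_)), zero_smul]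
    rcases lt_or_gt_of_ne h1 with h | h
    · have : (j : ℝ) + 1 ≤ k := by exact_mod_cast h
      exact Or.inl (by linarith only [hs.1, this])
    · have : (k : ℝ) + 2 ≤ j := by exact_mod_cast (by omega : k + 2 ≤ j)
      exact Or.inr (by linarith only [hs.2, this])

/-- L8. Boundary values that are affine on the short sides. Hint: `m` large;
`I e x = ∑ k, max 0 (1 - |x - tk k| * (m + 2) / 2) • φ (vk k e)`; the function equal to
`I 1 z.re` for `0 ≤ z.im` and to `I (-1) z.re` otherwise is continuous on the frontier (there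
`z.im = 0` forces `z = ± 1`); extend it by Tietze (`ContinuousMap.exists_restrict_eq`). -/
theorem exists_lens_sides {E : Type} [NormedAddCommGroup E] [NormedSpace ℝ E]
    [FiniteDimensional ℝ E] {σ : ℝ} (hσ : 0 < σ) : ∃ Λ : Lens, ∀ φ : ℂ → E, ∃ ω : ℂ → E,
      Continuous ω ∧ (∀ v ∈ Λ.Vt, ω v = φ v) ∧ ∀ y ∈ frontier Λ.P, ∃ v ∈ Λ.Vt, ∃ v' ∈ Λ.Vt,
        ‖v - v'‖ ≤ σ ∧ y ∈ segment ℝ v v' ∧ segment ℝ v v' ⊆ frontier Λ.P ∧
          ∀ t ∈ Icc (0 : ℝ) 1, ω (AffineMap.lineMap v v' t) = AffineMap.lineMap (φ v) (φ v') t := by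
  obtain ⟨m, hm⟩ := exists_nat_ge (6 / σ)
  obtain ⟨Λ, hup, hV⟩ := exists_lens m
  refine ⟨Λ, fun φ => ?_⟩
  obtain ⟨J, hJc, hJ⟩ : ∃ J : ℝ → ℝ → E, (∀ e, Continuous (J e)) ∧ ∀ e, ∀ k < m + 2,
      ∀ s ∈ Icc (0 : ℝ) 1, J e (tk (m + 2) k + s * (2 / (m + 2 : ℕ))) =
        AffineMap.lineMap (φ (vk (m + 2) k e)) (φ (vk (m + 2) (k + 1) e)) s :=
    ⟨fun e x => ∑ j ∈ Finset.range (m + 3),
      max 0 (1 - |(x + 1) * (m + 2 : ℕ) / 2 - j|) • φ (vk (m + 2) j e), fun e => by fun_prop,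
      fun e k hk s hs => exists_lens_sides_hat hk (fun j => φ (vk (m + 2) j e)) hs⟩
  have h01 : (0 : ℝ) ∈ Icc (0 : ℝ) 1 := left_mem_Icc.2 zero_le_one
  have h11 : (1 : ℝ) ∈ Icc (0 : ℝ) 1 := right_mem_Icc.2 zero_le_one
  have hend : ∀ x, |x| ≤ 1 → Λ.up x ≤ 0 → J 1 x = J (-1) x := fun x hx h => by
    have h1 : |x| = 1 := le_antisymm hx (by linarith only [Λ.half_le hx, h])
    rcases (abs_eq zero_le_one).1 h1 with rfl | rfl
    · have := fun e => hJ e (m + 1) (by omega) 1 h11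
      simp only [one_mul, ← exists_lens_succ, AffineMap.lineMap_apply_one, exists_lens_last,
        vk, one_pow, sub_self, mul_zero] at this
      rw [this, this]
    · have := fun e => hJ e 0 (by omega) 0 h01
      simp only [zero_mul, add_zero, AffineMap.lineMap_apply_zero, exists_lens_zero,
        vk, neg_one_sq, sub_self, mul_zero] at this
      rw [this, this]
  have hfr : ∀ y, y ∈ frontier Λ.P ↔ |y.re| ≤ 1 ∧ |y.im| = Λ.up y.re := fun y => by
    rw [Lens.P, Λ.mem_frontier, add_zero]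
    refine ⟨fun ⟨⟨h1, h2⟩, h3⟩ => ⟨h1, h3.elim (fun h => ?_) id⟩,
      fun ⟨h1, h2⟩ => ⟨⟨h1, by rw [add_zero, h2]⟩, Or.inr h2⟩⟩
    have h4 := Λ.le_two h1
    have h5 := Λ.half_le h1
    rw [h] at h4 h5
    linarith only [abs_nonneg y.im, h2, h4]
  have hcont : ContinuousOn (fun z : ℂ => if 0 ≤ z.im then J 1 z.re else J (-1) z.re)
      (frontier Λ.P) := by
    refine ContinuousOn.if (fun z hz => ?_) ((hJc 1).comp Complex.continuous_re).continuousOn
      ((hJc (-1)).comp Complex.continuous_re).continuousOn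
    have h1 : 0 = z.im := frontier_le_subset_eq continuous_const Complex.continuous_im hz.2
    obtain ⟨h2, h3⟩ := (hfr z).1 hz.1
    exact hend _ h2 (by rw [← h3, ← h1, abs_zero])
  have := TietzeExtension.of_tvs.{0} ℝ (E := E)
  obtain ⟨ω, hω⟩ := ContinuousMap.exists_restrict_eq isClosed_frontier
    ⟨_, continuousOn_iff_continuous_domRestrict.1 hcont⟩
  have hside : ∀ e : ℝ, e = 1 ∨ e = -1 → ∀ k < m + 2, ∀ s ∈ Icc (0 : ℝ) 1,
      AffineMap.lineMap (vk (m + 2) k e) (vk (m + 2) (k + 1) e) s ∈ frontier Λ.P ∧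
      ω (AffineMap.lineMap (vk (m + 2) k e) (vk (m + 2) (k + 1) e) s) =
        AffineMap.lineMap (φ (vk (m + 2) k e)) (φ (vk (m + 2) (k + 1) e)) s := by
    intro e he k hk s hs
    have h0 : (0 : ℝ) < 2 / (m + 2 : ℕ) := by positivity
    have h1 : |tk (m + 2) k + s * (2 / (m + 2 : ℕ))| ≤ 1 := by
      have h2 := abs_le.1 (exists_lens_abs hk.le)
      have h3 := abs_le.1 (exists_lens_abs (m := m) (k := k + 1) hk)
      rw [exists_lens_succ] at h3
      exact abs_le.2 ⟨by linarith only [mul_nonneg hs.1 h0.le, h2],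
        by linarith only [mul_le_of_le_one_left h0.le hs.2, h3]⟩
    rw [exists_lens_side hk e hs, ← hJ e k hk s hs, ← hup]
    generalize tk (m + 2) k + s * (2 / (m + 2 : ℕ)) = x at h1
    have h2 : 0 ≤ Λ.up x := le_trans (by linarith only [h1]) (Λ.half_le h1)
    have h3 : (⟨x, e * Λ.up x⟩ : ℂ) ∈ frontier Λ.P := (hfr _).2 ⟨h1, by
      rcases he with rfl | rfl <;> simp [abs_of_nonneg h2]⟩
    refine ⟨h3, (DFunLike.congr_fun hω ⟨_, h3⟩).trans ?_⟩
    change (if 0 ≤ e * Λ.up x then J 1 x else J (-1) x) = J e x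
    rcases he with rfl | rfl
    · rw [if_pos (by linarith only [h2])]
    · split_ifs with h
      · exact hend x h1 (by linarith only [h])
      · rfl
  have hmem : ∀ e : ℝ, e = 1 ∨ e = -1 → ∀ k ≤ m + 2, vk (m + 2) k e ∈ Λ.Vt := fun e he k hk =>
    (hV _).2 ⟨k, hk, he.imp (fun h => by rw [h]) fun h => by rw [h]⟩
  refine ⟨ω, ω.continuous, fun v hv => ?_, fun y hy => ?_⟩
  · obtain ⟨k, hk, e, he, rfl⟩ : ∃ k ≤ m + 2, ∃ e : ℝ, (e = 1 ∨ e = -1) ∧ v = vk (m + 2) k e := by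
      obtain ⟨k, hk, h | h⟩ := (hV v).1 hv
      · exact ⟨k, hk, 1, Or.inl rfl, h⟩
      · exact ⟨k, hk, -1, Or.inr rfl, h⟩
    rcases k with _ | k
    · simpa only [AffineMap.lineMap_apply_zero] using (hside e he 0 (by omega) 0 h01).2
    · simpa only [AffineMap.lineMap_apply_one] using (hside e he k (by omega) 1 h11).2
  · obtain ⟨h1, h2⟩ := (hfr y).1 hy
    obtain ⟨k, hk, s, hs, hx⟩ := exists_lens_cover m h1
    obtain ⟨e, he, h3⟩ : ∃ e : ℝ, (e = 1 ∨ e = -1) ∧ y.im = e * Λ.up y.re := by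
      rcases abs_choice y.im with h | h
      · exact ⟨1, Or.inl rfl, by linarith only [h2, h]⟩
      · exact ⟨-1, Or.inr rfl, by linarith only [h2, h]⟩
    refine ⟨_, hmem e he k hk.le, _, hmem e he (k + 1) hk, ?_, ?_, ?_,
      fun t ht => (hside e he k hk t ht).2⟩
    · have h0 : (0 : ℝ) < 2 / (m + 2 : ℕ) := by positivity
      have h4 : 3 * ((2 : ℝ) / (m + 2 : ℕ)) ≤ σ := by
        rw [div_le_iff₀ hσ] at hm
        rw [← mul_div_assoc, div_le_iff₀ (by positivity)]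
        push_cast
        linarith only [hσ, hm]
      have h5 := abs_le.1 (exists_lens_abs hk.le)
      have h6 := abs_le.1 (exists_lens_abs (m := m) (k := k + 1) hk)
      refine (Complex.norm_le_abs_re_add_abs_im _).trans (le_trans ?_ h4)
      simp only [vk, Complex.sub_re, Complex.sub_im]
      rw [exists_lens_succ] at h6 ⊢
      generalize (2 : ℝ) / (m + 2 : ℕ) = h at *
      generalize tk (m + 2) k = t at *
      have h7 : |t - (t + h)| ≤ h := abs_le.2 ⟨by linarith only [], by linarith only [h0]⟩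
      have h8 : |e * (1 - t ^ 2) - e * (1 - (t + h) ^ 2)| ≤ 2 * h := by
        rcases he with rfl | rfl <;> exact abs_le.2 ⟨by nlinarith only [h0, h5, h6], by nlinarith only [h0, h6, h5]⟩
      linarith only [h7, h8]
    · rw [segment_eq_image_lineMap]
      refine ⟨s, hs, ?_⟩
      rw [exists_lens_side hk e hs, ← hx, ← hup, ← h3]
    · rw [segment_eq_image_lineMap]
      rintro _ ⟨t, ht, rfl⟩
      exact (hside e he k hk t ht).1

end Pool.Agent.MP_17e62b_gt.H14

/-! The Rado lemma: a map with ascending paths to the vertices of a convex polygon is an almost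
Lipschitz graph. -/

namespace Pool.Agent.MP_17e62b_gt.H14

open Set Filter Topology Complex Pool.Agent.Lib.PlaneTop
open scoped InnerProductSpace

/-- `θ` is the change of a continuous logarithm of `α s - β t` from `(0, 0)` to `(1, 1)`. -/
def Turn {p a p' b : ℂ} (α : Path p a) (β : Path p' b) (θ : ℂ) : Prop :=
  ∃ l : unitInterval × unitInterval → ℂ, Continuous l ∧ (∀ q, exp (l q) = α q.1 - β q.2) ∧
    θ = l (1, 1) - l (0, 0)

/-- R1. Hint: `hasLogOn_of_convex` on `Icc 0 1 ×ˢ Icc 0 1` for `α.extend`, `β.extend`. -/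
theorem exists_turn {p a p' b : ℂ} (α : Path p a) (β : Path p' b) (h : ∀ s t, α s ≠ β t) :
    ∃ θ, Turn α β θ := by
  obtain ⟨ω, h1, h2⟩ := hasLogOn_of_convex (E := ℝ × ℝ)
    (F := fun q => α.extend q.1 - β.extend q.2) (C := Icc 0 1 ×ˢ Icc 0 1)
    ((convex_Icc 0 1).prod (convex_Icc 0 1))
    (((α.continuous_extend.comp continuous_fst).sub
      (β.continuous_extend.comp continuous_snd)).continuousOn)
    (fun q hq => by
      rw [Path.extend_apply _ hq.1, Path.extend_apply _ hq.2]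
      exact sub_ne_zero.2 (h _ _))
  refine ⟨_, fun q => ω ((q.1 : ℝ), (q.2 : ℝ)), ?_, fun q => ?_, rfl⟩
  · exact h1.comp_continuous (by fun_prop) (fun q => ⟨q.1.2, q.2.2⟩)
  · rw [h2 _ ⟨q.1.2, q.2.2⟩]
    simp only [Subtype.coe_prop, Path.extend_apply, Subtype.coe_eta]

/-- Two continuous logarithms of proportional functions on `[0, 1]` change alike. -/
theorem turn_left_aux {ω ω' : unitInterval → ℂ} {c : ℂ} (h : Continuous ω) (h' : Continuous ω')
    (he : ∀ x, exp (ω x) = c * exp (ω' x)) : ω 1 - ω 0 = ω' 1 - ω' 0 := by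
  have hc : c ≠ 0 := by
    rintro rfl
    exact exp_ne_zero _ ((he 0).trans (zero_mul _))
  have := log_sub_const (ω := ω) (ω' := fun x => log c + ω' x) (K := univ) isPreconnected_univ
    h.continuousOn (continuous_const.add h').continuousOn
    (fun x _ => by rw [he, exp_add, exp_log hc]) (mem_univ 1) (mem_univ 0)
  linear_combination this

/-- A continuous logarithm of `u` changes like the branch `log (u / n)`. -/
theorem turn_left_branch {ω u : unitInterval → ℂ} {n : ℂ} (h : Continuous ω) (hu : Continuous u)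
    (he : ∀ x, exp (ω x) = u x) (hs : ∀ x, u x / n ∈ slitPlane) :
    ω 1 - ω 0 = log (u 1 / n) - log (u 0 / n) := by
  have hn : n ≠ 0 := by
    rintro rfl
    exact slitPlane_ne_zero (hs 0) (div_zero _)
  refine turn_left_aux (ω' := fun x => log (u x / n)) (c := n) h ((hu.div_const n).clog hs)
    (fun x => ?_)
  rw [he, exp_log (slitPlane_ne_zero (hs x)), mul_div_cancel₀ _ hn]

/-- R2. Change of the first path. Hint: split `l (1,1) - l (0,0)` at `(0,1)`. Along `s = 0` both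
logarithms are logarithms of `p - β t` (`log_sub_const`); along `t = 1` compare with
`log ((α s - b) / n)`, which is continuous. -/
theorem turn_left {p a a' p' b n θ θ' : ℂ} {α : Path p a} {α' : Path p a'} {β : Path p' b}
    (h : Turn α β θ) (h' : Turn α' β θ') (hα : ∀ s, (α s - b) / n ∈ slitPlane)
    (hα' : ∀ s, (α' s - b) / n ∈ slitPlane) :
    θ - θ' = log ((a - b) / n) - log ((a' - b) / n) := by
  obtain ⟨l, hl, he, rfl⟩ := h
  obtain ⟨l', hl', he', rfl⟩ := h'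
  have e0 := turn_left_aux (ω := fun t => l (0, t)) (ω' := fun t => l' (0, t)) (c := 1)
    (by fun_prop) (by fun_prop) (fun t => by simp [he, he'])
  have e1 := turn_left_branch (ω := fun s => l (s, 1)) (u := fun s => α s - b) (n := n)
    (by fun_prop) (by fun_prop) (fun s => by simp [he]) hα
  have e2 := turn_left_branch (ω := fun s => l' (s, 1)) (u := fun s => α' s - b) (n := n)
    (by fun_prop) (by fun_prop) (fun s => by simp [he']) hα'
  simp only [Path.source, Path.target] at e0 e1 e2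
  linear_combination e0 + e1 - e2

/-- R3. Change of the second path (split at `(1, 0)`). -/
theorem turn_right {p a p' b b' n θ θ' : ℂ} {α : Path p a} {β : Path p' b} {β' : Path p' b'}
    (h : Turn α β θ) (h' : Turn α β' θ') (hβ : ∀ t, (a - β t) / n ∈ slitPlane)
    (hβ' : ∀ t, (a - β' t) / n ∈ slitPlane) :
    θ - θ' = log ((a - b) / n) - log ((a - b') / n) := by
  obtain ⟨l, hl, he, rfl⟩ := h
  obtain ⟨l', hl', he', rfl⟩ := h'
  have e0 := turn_left_aux (ω := fun s => l (s, 0)) (ω' := fun s => l' (s, 0)) (c := 1)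
    (by fun_prop) (by fun_prop) (fun t => by simp [he, he'])
  have e1 := turn_left_branch (ω := fun t => l (1, t)) (u := fun t => a - β t) (n := n)
    (by fun_prop) (by fun_prop) (fun s => by simp [he]) hβ
  have e2 := turn_left_branch (ω := fun t => l' (1, t)) (u := fun t => a - β' t) (n := n)
    (by fun_prop) (by fun_prop) (fun s => by simp [he']) hβ'
  simp only [Path.source, Path.target] at e0 e1 e2
  linear_combination e0 + e1 - e2

/-- R4. Two branches change alike along a segment that avoids both cuts (`log_sub_const`). -/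
theorem log_seg {w w' n ξ : ℂ} (hn : ∀ z ∈ segment ℝ w w', z / n ∈ slitPlane)
    (hξ : ∀ z ∈ segment ℝ w w', z / ξ ∈ slitPlane) :
    log (w / n) - log (w' / n) = log (w / ξ) - log (w' / ξ) := by
  have hn0 : n ≠ 0 := by
    rintro rfl
    exact slitPlane_ne_zero (hn w (left_mem_segment ℝ w w')) (div_zero _)
  have hξ0 : ξ ≠ 0 := by
    rintro rfl
    exact slitPlane_ne_zero (hξ w (left_mem_segment ℝ w w')) (div_zero _)
  have := log_sub_const (ω := fun z => log (z / n)) (ω' := fun z => log (ξ / n) + log (z / ξ))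
    (K := segment ℝ w w') (convex_segment w w').isPreconnected
    ((continuousOn_id.div_const n).clog hn)
    (continuousOn_const.add ((continuousOn_id.div_const ξ).clog hξ))
    (fun z hz => by
      rw [exp_add, exp_log (slitPlane_ne_zero (hn z hz)), exp_log (slitPlane_ne_zero (hξ z hz)),
        exp_log (div_ne_zero hξ0 hn0)]
      field_simp)
    (left_mem_segment ℝ w w') (right_mem_segment ℝ w w')
  linear_combination this

/-- R5. Hint: if `z = - t ξ`, `t ≥ 0`, `z = (1 - s) w + s w'`, then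
`- t C ^ 2 = ⟪ξ, z⟫ > - L₀ ((1 - s) ‖w‖ + s ‖w'‖) ≥ - (L₀ / c₀) ⟪n, z⟫ ≥ - (L₀ / c₀) t C`. -/
theorem seg_slit {w w' n ξ : ℂ} {c₀ L₀ : ℝ} (hc : 0 < c₀) (hL : 0 ≤ L₀) (hn : ‖n‖ = 1)
    (hw : c₀ * ‖w‖ ≤ ⟪n, w⟫_ℝ) (hw' : c₀ * ‖w'‖ ≤ ⟪n, w'⟫_ℝ) (hξ : L₀ / c₀ < ‖ξ‖)
    (h1 : -(L₀ * ‖w‖) < ⟪ξ, w⟫_ℝ) (h2 : -(L₀ * ‖w'‖) < ⟪ξ, w'⟫_ℝ) (h0 : w ≠ 0) (h0' : w' ≠ 0) :
    ∀ z ∈ segment ℝ w w', z / ξ ∈ slitPlane := by
  rintro z ⟨a, b, ha, hb, hab, rfl⟩
  by_contra hz
  rw [mem_slitPlane_iff, not_or, not_lt, not_not] at hz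
  have hξ0 : 0 < ‖ξ‖ := lt_of_le_of_lt (div_nonneg hL hc.le) hξ
  have hξ' : ξ ≠ 0 := norm_pos_iff.1 hξ0
  set t : ℝ := -((a • w + b • w') / ξ).re with ht
  have ht0 : 0 ≤ t := by rw [ht]; linarith only [hz.1]
  have hzt : a • w + b • w' = (-t) • ξ := by
    have e : (a • w + b • w') / ξ = ((-t : ℝ) : ℂ) :=
      Complex.ext (by rw [ofReal_re, ht, neg_neg]) (by rw [ofReal_im, hz.2])
    rw [Complex.real_smul (x := -t), ← e, div_mul_cancel₀ _ hξ']
  have e1 : a * ⟪ξ, w⟫_ℝ + b * ⟪ξ, w'⟫_ℝ = -t * ‖ξ‖ ^ 2 := by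
    rw [← real_inner_smul_right, ← real_inner_smul_right, ← inner_add_right, hzt,
      real_inner_smul_right, real_inner_self_eq_norm_sq]
  have e2 : a * ⟪n, w⟫_ℝ + b * ⟪n, w'⟫_ℝ = -t * ⟪n, ξ⟫_ℝ := by
    rw [← real_inner_smul_right, ← real_inner_smul_right, ← inner_add_right, hzt,
      real_inner_smul_right]
  have e3 : -⟪n, ξ⟫_ℝ ≤ ‖ξ‖ := by
    have := abs_real_inner_le_norm n ξ
    rw [hn, one_mul] at this
    linarith only [neg_abs_le ⟪n, ξ⟫_ℝ, this]
  have e4 : L₀ < c₀ * ‖ξ‖ := by rwa [div_lt_iff₀' hc] at hξ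
  set S : ℝ := a * ‖w‖ + b * ‖w'‖ with hS
  have hS0 : 0 ≤ S := by positivity
  have e5 : c₀ * S ≤ t * ‖ξ‖ := by
    have f1 := mul_le_mul_of_nonneg_left hw ha
    have f2 := mul_le_mul_of_nonneg_left hw' hb
    have f3 := mul_le_mul_of_nonneg_left e3 ht0
    rw [hS]
    linarith only [e2, f1, f2, f3]
  have e6 : t * ‖ξ‖ ^ 2 < L₀ * S := by
    have f1 := mul_le_mul_of_nonneg_left h1.le ha
    have f2 := mul_le_mul_of_nonneg_left h2.le hb
    rw [hS]
    rcases ha.eq_or_lt with h | h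
    · have f3 := mul_lt_mul_of_pos_left h2 (show 0 < b by linarith only [hab, h])
      linarith only [e1, f1, f3]
    · have f3 := mul_lt_mul_of_pos_left h1 h
      linarith only [e1, f2, f3]
  have e7 := mul_le_mul_of_nonneg_right e5 hξ0.le
  have e8 := mul_le_mul_of_nonneg_right e4.le hS0
  linarith only [e6, e7, e8]

theorem no_turn_slit {n z : ℂ} (h : 0 < ⟪n, z⟫_ℝ) : z / n ∈ slitPlane := by
  have hn : n ≠ 0 := fun h0 => by simp [h0] at h
  refine Or.inl ?_
  rw [Complex.inner, mul_re, conj_re, conj_im] at h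
  rw [div_re, ← add_div]
  exact div_pos (by linarith) (normSq_pos.2 hn)

theorem no_turn_pos {w n : ℂ} {c₀ : ℝ} (hc : 0 < c₀) (hw : c₀ * ‖w‖ ≤ ⟪n, w⟫_ℝ) (h0 : w ≠ 0) :
    0 < ⟪n, w⟫_ℝ :=
  (mul_pos hc (norm_pos_iff.2 h0)).trans_le hw

theorem no_turn_seg {w w' n ξ : ℂ} {c₀ L₀ : ℝ} (hc : 0 < c₀) (hL : 0 ≤ L₀) (hn : ‖n‖ = 1)
    (hw : c₀ * ‖w‖ ≤ ⟪n, w⟫_ℝ) (hw' : c₀ * ‖w'‖ ≤ ⟪n, w'⟫_ℝ) (hξ : L₀ / c₀ < ‖ξ‖)
    (h1 : -(L₀ * ‖w‖) < ⟪ξ, w⟫_ℝ) (h2 : -(L₀ * ‖w'‖) < ⟪ξ, w'⟫_ℝ) (h0 : w ≠ 0) (h0' : w' ≠ 0) :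
    log (w / n) - log (w' / n) = log (w / ξ) - log (w' / ξ) := by
  refine log_seg ?_ (seg_slit hc hL hn hw hw' hξ h1 h2 h0 h0')
  have p1 := no_turn_pos hc hw h0
  have p2 := no_turn_pos hc hw' h0'
  rintro z ⟨s, t, hs, ht, hst, rfl⟩
  refine no_turn_slit ?_
  rw [inner_add_right, real_inner_smul_right, real_inner_smul_right]
  rcases hs.eq_or_lt with h | h
  · have : t = 1 := by linarith only [hs, hst, h]
    rw [← h, this]
    linarith only [p2]
  · have := mul_pos h p1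
    have := mul_nonneg ht p2.le
    linarith

/-- R6. Hint: call `(a, b, α, β)` valid for `ξ` if `a, b ∈ Vt`, `α ⊆ Up ξ`, `β ⊆ Dn ξ`. The number
`ι ξ = log ((a - b) / ξ) - θ`, `Turn α β θ`, does not depend on the valid datum (change `α`, then
`β`: `turn_left` with the normal at `b`, `turn_right` with minus the normal at `a`, `log_seg`,
`seg_slit`), satisfies `exp (ι ξ) = (p - p') / ξ`, and is continuous on the circle, because one
datum is valid near `ξ₀`. This contradicts `not_hasLogOn_sphere`. -/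
theorem no_turn {D Vt : Set ℂ} {c₀ L₀ C : ℝ} (hc : 0 < c₀) (hL : 0 ≤ L₀) (hC : L₀ / c₀ < C)
    (hV : ∀ b ∈ Vt, ∃ n : ℂ, ‖n‖ = 1 ∧ ∀ a ∈ D, c₀ * ‖a - b‖ ≤ ⟪n, a - b⟫_ℝ)
    {Up Dn : ℂ → Set ℂ} (hU : ∀ ξ, Up ξ ⊆ D) (hDn : ∀ ξ, Dn ξ ⊆ D)
    (hd : ∀ ξ, Disjoint (Up ξ) (Dn ξ))
    (hang : ∀ ξ : ℂ, ‖ξ‖ = C → ∀ a ∈ Vt, ∀ b ∈ Vt, a ∈ Up ξ → b ∈ Dn ξ →
      -(L₀ * ‖a - b‖) < ⟪ξ, a - b⟫_ℝ)
    {p p' : ℂ}
    (hp : ∀ ξ₀ : ℂ, ‖ξ₀‖ = C → ∃ a ∈ Vt, ∃ b ∈ Vt, ∃ (α : Path p a) (β : Path p' b),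
      ∀ᶠ ξ in 𝓝 ξ₀, (∀ s, α s ∈ Up ξ) ∧ ∀ t, β t ∈ Dn ξ) : False := by
  have C0 : 0 < C := (div_nonneg hL hc.le).trans_lt hC
  have ne : ∀ {ξ x y : ℂ}, x ∈ Up ξ → y ∈ Dn ξ → x ≠ y := fun hx hy h =>
    Set.disjoint_left.1 (hd _) hx (h ▸ hy)
  let R : ℂ → ℂ → Prop := fun ξ z => ∃ a ∈ Vt, ∃ b ∈ Vt, ∃ (α : Path p a) (β : Path p' b) (θ : ℂ),
    (∀ s, α s ∈ Up ξ) ∧ (∀ t, β t ∈ Dn ξ) ∧ Turn α β θ ∧ z = log ((a - b) / ξ) - θ
  have uniq : ∀ ξ z z', ‖ξ‖ = C → R ξ z → R ξ z' → z = z' := by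
    rintro ξ z z' hξ ⟨a, ha, b, hb, α, β, θ, hα, hβ, ht, rfl⟩
      ⟨a', ha', b', hb', α', β', θ', hα', hβ', ht', rfl⟩
    obtain ⟨θ₁, ht₁⟩ := exists_turn α' β fun s t => ne (hα' s) (hβ t)
    have ma : a ∈ Up ξ := by simpa using hα 1
    have ma' : a' ∈ Up ξ := by simpa using hα' 1
    have mb : b ∈ Dn ξ := by simpa using hβ 1
    have mb' : b' ∈ Dn ξ := by simpa using hβ' 1
    obtain ⟨n, hn, hb1⟩ := hV b hb
    obtain ⟨m, hm, ha1⟩ := hV a' ha'
    have ha2 : ∀ y ∈ D, c₀ * ‖a' - y‖ ≤ ⟪-m, a' - y⟫_ℝ := fun y hy => by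
      rw [inner_neg_left, ← inner_neg_right, neg_sub, norm_sub_rev]
      exact ha1 y hy
    have e1 := turn_left (n := n) ht ht₁
      (fun s => no_turn_slit (no_turn_pos hc (hb1 _ (hU ξ (hα s))) (sub_ne_zero.2 (ne (hα s) mb))))
      fun s => no_turn_slit (no_turn_pos hc (hb1 _ (hU ξ (hα' s))) (sub_ne_zero.2 (ne (hα' s) mb)))
    have e2 := turn_right (n := -m) ht₁ ht'
      (fun t => no_turn_slit (no_turn_pos hc (ha2 _ (hDn ξ (hβ t))) (sub_ne_zero.2 (ne ma' (hβ t)))))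
      fun t => no_turn_slit (no_turn_pos hc (ha2 _ (hDn ξ (hβ' t))) (sub_ne_zero.2 (ne ma' (hβ' t))))
    have e3 := no_turn_seg hc hL hn (hb1 _ (hU ξ ma)) (hb1 _ (hU ξ ma')) (hξ ▸ hC)
      (hang ξ hξ a ha b hb ma mb) (hang ξ hξ a' ha' b hb ma' mb) (sub_ne_zero.2 (ne ma mb))
      (sub_ne_zero.2 (ne ma' mb))
    have e4 := no_turn_seg hc hL ((norm_neg m).trans hm) (ha2 _ (hDn ξ mb)) (ha2 _ (hDn ξ mb'))
      (hξ ▸ hC) (hang ξ hξ a' ha' b hb ma' mb) (hang ξ hξ a' ha' b' hb' ma' mb')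
      (sub_ne_zero.2 (ne ma' mb)) (sub_ne_zero.2 (ne ma' mb'))
    linear_combination -e1 - e2 - e3 - e4
  have loc : ∀ ξ₀ : ℂ, ‖ξ₀‖ = C → ∃ w θ : ℂ, w / ξ₀ ∈ slitPlane ∧
      ∀ᶠ ξ in 𝓝 ξ₀, R ξ (log (w / ξ) - θ) := fun ξ₀ h0 => by
    obtain ⟨a, ha, b, hb, α, β, hev⟩ := hp ξ₀ h0
    obtain ⟨hα, hβ⟩ := hev.self_of_nhds
    obtain ⟨θ, ht⟩ := exists_turn α β fun s t => ne (hα s) (hβ t)
    have ma : a ∈ Up ξ₀ := by simpa using hα 1
    have mb : b ∈ Dn ξ₀ := by simpa using hβ 1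
    obtain ⟨n, hn, hb1⟩ := hV b hb
    refine ⟨a - b, θ, seg_slit hc hL hn (hb1 _ (hU _ ma)) (hb1 _ (hU _ ma)) (h0 ▸ hC)
      (hang _ h0 a ha b hb ma mb) (hang _ h0 a ha b hb ma mb) (sub_ne_zero.2 (ne ma mb))
      (sub_ne_zero.2 (ne ma mb)) _ (left_mem_segment _ _ _), hev.mono fun ξ h => ?_⟩
    exact ⟨a, ha, b, hb, α, β, θ, h.1, h.2, ht, rfl⟩
  have ex : ∀ ξ : ℂ, ∃ z, ‖ξ‖ = C → R ξ z := fun ξ => by
    by_cases h : ‖ξ‖ = C
    · obtain ⟨w, θ, -, hev⟩ := loc ξ h
      exact ⟨_, fun _ => hev.self_of_nhds⟩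
    · exact ⟨0, fun h' => absurd h' h⟩
  choose ι hι using ex
  refine not_hasLogOn_sphere 0 C0 ⟨fun ξ => log (p - p') - ι ξ, continuousOn_const.sub ?_, ?_⟩
  · intro ξ₀ h0
    rw [mem_sphere_zero_iff_norm] at h0
    obtain ⟨w, θ, hw, hev⟩ := loc ξ₀ h0
    have hne : ξ₀ ≠ 0 := norm_pos_iff.1 (h0 ▸ C0)
    have hcont : ContinuousAt (fun ξ => log (w / ξ) - θ) ξ₀ :=
      ((continuousAt_const.div continuousAt_id hne).clog hw).sub continuousAt_const
    refine hcont.continuousWithinAt.congr_of_eventuallyEq ?_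
      (uniq _ _ _ h0 (hι _ h0) hev.self_of_nhds)
    filter_upwards [self_mem_nhdsWithin, mem_nhdsWithin_of_mem_nhds hev] with ξ h1 h2
    rw [mem_sphere_zero_iff_norm] at h1
    exact uniq _ _ _ h1 (hι _ h1) h2
  · intro ξ h0
    rw [mem_sphere_zero_iff_norm] at h0
    obtain ⟨a, -, b, -, α, β, θ, -, -, ⟨l, -, hl, rfl⟩, e⟩ := hι ξ h0
    have hne : ξ ≠ 0 := norm_pos_iff.1 (h0 ▸ C0)
    have l0 : exp (l (0, 0)) = p - p' := by simpa using hl (0, 0)
    have l1 : exp (l (1, 1)) = a - b := by simpa using hl (1, 1)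
    have n0 : p - p' ≠ 0 := l0 ▸ exp_ne_zero _
    have n1 : a - b ≠ 0 := l1 ▸ exp_ne_zero _
    beta_reduce
    rw [e, exp_sub, exp_sub, exp_sub, l0, l1, exp_log n0, exp_log (div_ne_zero n1 hne)]
    field_simp
    ring

theorem rado_path {Y : Type} [NormedAddCommGroup Y] [NormedSpace ℝ Y] {X Vt : Set ℂ} {W : ℂ → Y}
    {δ A : ℝ} (hp : HP X Vt W δ) (hA : 0 < A) (u : Y →L[ℝ] ℝ) (hu : ‖u‖ ≤ A) {x : ℂ}
    (hx : x ∈ X) : ∃ b ∈ Vt, ∃ γ : Path x b, ∀ s, γ s ∈ X ∧ u (W x) - A * δ ≤ u (W (γ s)) := by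
  obtain ⟨b, hb, γ, hγ⟩ := hp x hx (A⁻¹ • u) (by
    rw [norm_smul, norm_inv, Real.norm_of_nonneg hA.le, inv_mul_le_iff₀ hA, mul_one]
    exact hu)
  refine ⟨b, hb, γ, fun s => ⟨(hγ s).1, ?_⟩⟩
  have h := mul_le_mul_of_nonneg_left (hγ s).2 hA.le
  simp only [_root_.smul_apply, smul_eq_mul, mul_sub,
    mul_inv_cancel_left₀ hA.ne'] at h
  exact h

/-- R7. Hint: by a norming functional reduce to a real `F` with `F p - F p' = ‖F p - F p'‖`.
With `C = L₀ / c₀ + 1` and `H ξ z = F z - (F p + F p') / 2 + ⟪ξ, T z - (T p + T p') / 2⟫` put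
`Up ξ = {z ∈ X | 0 < H ξ z}`, `Dn ξ = {z ∈ X | H ξ z < 0}`. If the claim fails, `hp` with the
functionals `± (C + 1)⁻¹ (F + ⟪ξ₀, T⟫)` gives paths on which `± H ξ₀ ≥ μ > 0`, and `T` is bounded.
-/
theorem rado {E : Type} [NormedAddCommGroup E] [NormedSpace ℝ E] {D X Vt : Set ℂ} {c₀ L₀ δ M : ℝ}
    (hc : 0 < c₀) (hL : 0 ≤ L₀) (hX : X ⊆ D)
    (hV : ∀ b ∈ Vt, ∃ n : ℂ, ‖n‖ = 1 ∧ ∀ a ∈ D, c₀ * ‖a - b‖ ≤ ⟪n, a - b⟫_ℝ)
    {T : ℂ → ℂ} {F : ℂ → E} (hT : ∀ b ∈ Vt, T b = b) (hM : ∀ z ∈ X, ‖T z‖ ≤ M)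
    (hF : ∀ a ∈ Vt, ∀ b ∈ Vt, ‖F a - F b‖ ≤ L₀ * ‖a - b‖)
    (hp : HP X Vt (fun z => (T z, F z)) δ) {p p' : ℂ} (h : p ∈ X) (h' : p' ∈ X) :
    ‖F p - F p'‖ ≤ (L₀ / c₀ + 1) * ‖T p - T p'‖ + 2 * δ * (L₀ / c₀ + 2) := by
  by_contra hcon
  rw [not_le] at hcon
  have K0 : 0 ≤ L₀ / c₀ := div_nonneg hL hc.le
  obtain ⟨g, hg, hg1⟩ := exists_dual_vector'' ℝ (F p - F p')
  rw [RCLike.ofReal_real_eq_id, id, map_sub] at hg1
  have M0 : 0 ≤ M := (norm_nonneg _).trans (hM p h)
  set C := L₀ / c₀ + 1 with hC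
  set μ := (‖F p - F p'‖ - C * ‖T p - T p'‖) / 2 - (C + 1) * δ with hμ
  have μ0 : 0 < μ := by
    have : 2 * δ * (L₀ / c₀ + 2) = 2 * ((C + 1) * δ) := by rw [hC]; ring
    linarith only [hcon, hμ]
  let H : ℂ → ℂ → ℝ := fun ξ z => g (F z) + ⟪ξ, T z⟫_ℝ -
    (g (F p) + ⟪ξ, T p⟫_ℝ + (g (F p') + ⟪ξ, T p'⟫_ℝ)) / 2
  refine no_turn (D := D) (Vt := Vt) (C := C) hc hL (by linarith only []) hV
    (Up := fun ξ => {z | z ∈ X ∧ 0 < H ξ z}) (Dn := fun ξ => {z | z ∈ X ∧ H ξ z < 0})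
    (fun ξ z hz => hX hz.1) (fun ξ z hz => hX hz.1)
    (fun ξ => Set.disjoint_left.2 fun z h1 h2 => lt_asymm h1.2 h2.2) ?_ (p := p) (p' := p') ?_
  · intro ξ _ a ha b hb h1 h2
    have e1 := h1.2
    have e2 := h2.2
    simp only [H, hT a ha, hT b hb] at e1 e2
    have e3 : g (F a) - g (F b) ≤ L₀ * ‖a - b‖ := by
      rw [← map_sub]
      exact (le_abs_self _).trans ((g.le_opNorm _).trans
        ((mul_le_of_le_one_left (norm_nonneg _) hg).trans (hF a ha b hb)))
    rw [inner_sub_right]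
    linarith only [e1, e2, e3]
  · intro ξ₀ h0
    let u : (ℂ × E) →L[ℝ] ℝ := g.comp (ContinuousLinearMap.snd ℝ ℂ E) +
      (innerSL ℝ ξ₀).comp (ContinuousLinearMap.fst ℝ ℂ E)
    have hu : ∀ y : ℂ × E, u y = g y.2 + ⟪ξ₀, y.1⟫_ℝ := fun y => rfl
    have un : ‖u‖ ≤ C + 1 := u.opNorm_le_bound (by linarith only [K0]) fun y => by
      have e1 : ‖g y.2‖ ≤ ‖y‖ := (g.le_opNorm _).trans
        ((mul_le_of_le_one_left (norm_nonneg _) hg).trans (norm_snd_le y))
      have e2 : ‖⟪ξ₀, y.1⟫_ℝ‖ ≤ C * ‖y‖ := (norm_inner_le_norm _ _).trans (by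
        rw [h0]
        exact mul_le_mul_of_nonneg_left (norm_fst_le y) (by linarith only [K0]))
      rw [hu]
      exact (norm_add_le _ _).trans (by linarith only [e1, e2])
    obtain ⟨a, ha, α, hα⟩ := rado_path hp (A := C + 1) (by linarith only [K0]) u un h
    obtain ⟨b, hb, β, hβ⟩ := rado_path hp (A := C + 1) (by linarith only [K0]) (-u)
      ((norm_neg u).trans_le un) h'
    have e0 : -(C * ‖T p - T p'‖) ≤ ⟪ξ₀, T p⟫_ℝ - ⟪ξ₀, T p'⟫_ℝ := by
      rw [← inner_sub_right, ← h0]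
      exact (neg_le_neg (abs_real_inner_le_norm _ _)).trans (neg_abs_le _)
    refine ⟨a, ha, b, hb, α, β, ?_⟩
    filter_upwards [Metric.ball_mem_nhds ξ₀ (show 0 < μ / (2 * M + 1) by positivity)] with ξ hξ
    rw [Metric.mem_ball, dist_eq_norm, lt_div_iff₀ (by positivity)] at hξ
    have e1 : ∀ z ∈ X, |⟪ξ, T z⟫_ℝ - ⟪ξ₀, T z⟫_ℝ| ≤ ‖ξ - ξ₀‖ * M := fun z hz => by
      rw [← inner_sub_left]
      exact (abs_real_inner_le_norm _ _).trans
        (mul_le_mul_of_nonneg_left (hM z hz) (norm_nonneg _))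
    have e2 := abs_le.1 (e1 p h)
    have e3 := abs_le.1 (e1 p' h')
    have e4 := norm_nonneg (ξ - ξ₀)
    refine ⟨fun s => ⟨(hα s).1, ?_⟩, fun t => ⟨(hβ t).1, ?_⟩⟩
    · have e5 := (hα s).2
      have e6 := abs_le.1 (e1 _ (hα s).1)
      simp only [hu] at e5
      simp only [H]
      linarith only [e2.2, e3.2, e6.1, hg1, hμ, e0, hξ, e4, e5]
    · have e5 := (hβ t).2
      have e6 := abs_le.1 (e1 _ (hβ t).1)
      simp only [_root_.neg_apply, hu] at e5
      simp only [H]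
      linarith only [e2.1, e3.1, e6.2, hg1, hμ, e0, hξ, e4, e5]

end Pool.Agent.MP_17e62b_gt.H14

/-! Crossing saddles of a function on a convex set, and a sum of areas. -/

namespace Pool.Agent.MP_17e62b_gt.H14

open Set Filter Topology Complex Pool.Agent.Lib.PlaneTop
open scoped InnerProductSpace BigOperators

/-- At `p` the function `u` rises along `± v` and falls along `± w`; the rising branches continue
above the level of `p` to `b₁`, `b₃`, the falling ones below it to points of `Vt`. -/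
def Cross (D Vt : Set ℂ) (u : ℂ → ℝ) (p b₁ b₃ : ℂ) : Prop :=
  ∃ v w : ℂ, det2 v w ≠ 0 ∧
    (∀ t ∈ Ioc (0 : ℝ) 1, u p < u (p + t • v) ∧ u p < u (p - t • v) ∧
      u (p + t • w) < u p ∧ u (p - t • w) < u p) ∧
    JoinedIn {z | z ∈ D ∧ u p < u z} (p + v) b₁ ∧ JoinedIn {z | z ∈ D ∧ u p < u z} (p - v) b₃ ∧
    (∃ b ∈ Vt, JoinedIn {z | z ∈ D ∧ u z < u p} (p + w) b) ∧
    ∃ b ∈ Vt, JoinedIn {z | z ∈ D ∧ u z < u p} (p - w) b

/-- The linear map with columns `v`, `w`. -/
noncomputable def crossLin (v w : ℂ) : ℂ →ₗ[ℝ] ℂ :=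
  Complex.reLm.smulRight v + Complex.imLm.smulRight w

theorem crossLin_apply (v w y : ℂ) : crossLin v w y = y.re • v + y.im • w := rfl

theorem cross_inj_chart (p : ℂ) {v w : ℂ} (h : det2 v w ≠ 0) :
    ∃ ψ : ℂ ≃ₜ ℂ, ∀ y, ψ y = p + (y.re • v + y.im • w) := by
  have hi : Function.Injective (crossLin v w) := by
    rw [injective_iff_map_eq_zero]
    intro y hy
    rw [crossLin_apply] at hy
    have h1 := congrArg Complex.re hy
    have h2 := congrArg Complex.im hy
    simp only [add_re, add_im, smul_re, smul_im, smul_eq_mul, zero_re, zero_im] at h1 h2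
    unfold det2 at h
    apply Complex.ext
    · apply mul_left_cancel₀ h
      simp only [zero_re]
      linear_combination w.im * h1 - w.re * h2
    · apply mul_left_cancel₀ h
      simp only [zero_im]
      linear_combination v.re * h2 - v.im * h1
  exact ⟨(LinearEquiv.ofInjectiveEndo _ hi).toContinuousLinearEquiv.toHomeomorph.trans
    (Homeomorph.addLeft p), fun y => rfl⟩

theorem cross_inj_sign {u : ℂ → ℝ} {p v : ℂ} {r : ℝ → ℝ → Prop}
    (h : ∀ t ∈ Ioc (0 : ℝ) 1, r (u p) (u (p + t • v)) ∧ r (u p) (u (p - t • v))) {t : ℝ}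
    (ht : |t| ≤ 1) (h0 : t ≠ 0) : r (u p) (u (p + t • v)) := by
  rw [abs_le] at ht
  rcases lt_or_gt_of_ne h0 with h1 | h1
  · have := (h (-t) ⟨by linarith, by linarith [ht.1]⟩).2
    rwa [neg_smul, sub_neg_eq_add] at this
  · exact (h t ⟨h1, ht.2⟩).1

theorem cross_inj_mem {D : Set ℂ} (hD : Convex ℝ D) {p v : ℂ} (h1 : p + v ∈ D) (h2 : p - v ∈ D)
    {t : ℝ} (ht : |t| ≤ 1) : p + t • v ∈ D := by
  rw [abs_le] at ht
  have := hD h1 h2 (a := (1 + t) / 2) (b := (1 - t) / 2) (by linarith [ht.1]) (by linarith only [ht.2])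
    (by ring)
  convert this using 1
  module

theorem cross_inj_le {D Vt : Set ℂ} (hD : Convex ℝ D)
    (hV : ∀ b ∈ Vt, ∃ n : ℂ, ∀ z ∈ D, z ≠ b → 0 < ⟪n, z - b⟫_ℝ) {u : ℂ → ℝ} {p p' b₁ b₃ : ℂ}
    (h : Cross D Vt u p b₁ b₃) (h' : Cross D Vt u p' b₁ b₃) (hle : u p ≤ u p') : p = p' := by
  by_contra hne
  obtain ⟨v, w, hd, hl, J1, J3, J2, J4⟩ := h
  obtain ⟨v', w', -, hl', J1', J3', -, -⟩ := h'
  have up : ∀ t : ℝ, |t| ≤ 1 → t ≠ 0 → u p < u (p + t • v) := fun t ht h0 =>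
    cross_inj_sign (r := fun a b => a < b) (fun t ht => ⟨(hl t ht).1, (hl t ht).2.1⟩) ht h0
  have dn : ∀ t : ℝ, |t| ≤ 1 → t ≠ 0 → u (p + t • w) < u p := fun t ht h0 =>
    cross_inj_sign (r := fun a b => b < a) (fun t ht => (hl t ht).2.2) ht h0
  have up' : ∀ t : ℝ, |t| ≤ 1 → t ≠ 0 → u p' < u (p' + t • v') := fun t ht h0 =>
    cross_inj_sign (r := fun a b => a < b) (fun t ht => ⟨(hl' t ht).1, (hl' t ht).2.1⟩) ht h0
  set A : Set ℂ := {z | z ∈ D ∧ (u p < u z ∨ z = p')} with hA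
  have m1 : {z | z ∈ D ∧ u p < u z} ⊆ A := fun z hz => ⟨hz.1, Or.inl hz.2⟩
  have m2 : {z | z ∈ D ∧ u p' < u z} ⊆ A := fun z hz => ⟨hz.1, Or.inl (hle.trans_lt hz.2)⟩
  have seg : JoinedIn A (p' + v') (p' - v') := by
    apply JoinedIn.of_segment_subset
    rintro z ⟨a, b, ha, hb, hab, rfl⟩
    have e : a • (p' + v') + b • (p' - v') = p' + (a - b) • v' := by
      have : a = 1 - b := by linarith only [hab]
      subst this
      module
    have ht : |a - b| ≤ 1 := abs_le.2 ⟨by linarith only [ha, hab], by linarith⟩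
    rw [e]
    refine ⟨cross_inj_mem hD J1'.source_mem.1 J3'.source_mem.1 ht, ?_⟩
    by_cases h0 : a - b = 0
    · right
      rw [h0, zero_smul, add_zero]
    · exact Or.inl (hle.trans_lt (up' _ ht h0))
  obtain ⟨γ, hγ⟩ : JoinedIn A (p + v) (p - v) :=
    (((J1.mono m1).trans (J1'.mono m2).symm).trans seg).trans
      ((J3'.mono m2).trans (J3.mono m1).symm)
  obtain ⟨ψ, hψ⟩ := cross_inj_chart p hd
  have hK : ∀ z ∈ range γ ∪ ψ.toOpenPartialHomeomorph '' {y | y.im = 0 ∧ |y.re| ≤ (1 : ℝ)},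
      z ∈ D ∧ u p ≤ u z := by
    rintro z (⟨t, rfl⟩ | ⟨y, hy, rfl⟩)
    · refine ⟨(hγ t).1, ?_⟩
      rcases (hγ t).2 with h | h
      · exact h.le
      · rw [h]; exact hle
    · have e : ψ.toOpenPartialHomeomorph y = p + y.re • v := by
        change ψ y = _
        rw [hψ, hy.1, zero_smul, add_zero]
      rw [e]
      refine ⟨cross_inj_mem hD J1.source_mem.1 J3.source_mem.1 hy.2, ?_⟩
      by_cases h0 : y.re = 0
      · rw [h0, zero_smul, add_zero]
      · exact (up _ hy.2 h0).le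
  have key : ∀ q : ℂ, (∃ b ∈ Vt, JoinedIn {z | z ∈ D ∧ u z < u p} q b) →
      HasLogOn (fun z => z - q)
        (range γ ∪ ψ.toOpenPartialHomeomorph '' {y | y.im = 0 ∧ |y.re| ≤ (1 : ℝ)}) := by
    rintro q ⟨b, hb, J⟩
    obtain ⟨n, hn⟩ := hV b hb
    have hzb : ∀ z ∈ range γ ∪ ψ.toOpenPartialHomeomorph '' {y | y.im = 0 ∧ |y.re| ≤ (1 : ℝ)},
        0 < ((z - b) * (starRingEnd ℂ) n).re := by
      intro z hz
      rw [← Complex.inner]
      refine hn z (hK z hz).1 ?_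
      rintro rfl
      exact absurd J.target_mem.2 (not_lt.2 (hK z hz).2)
    have hn0 : (starRingEnd ℂ) n ≠ 0 := by
      intro h0
      have := hzb _ (Or.inl ⟨0, rfl⟩)
      rw [h0] at this
      simp at this
    refine HasLogOn.of_joinedIn (a := b) (J.symm.mono fun z hz hzK => ?_) ?_
    · exact absurd hz.2 (not_lt.2 (hK z hzK).2)
    · refine ((hasLogOn_slit (F := fun z => (z - b) * (starRingEnd ℂ) n) (by fun_prop)
        fun z hz => Or.inl (hzb z hz)).div (hasLogOn_const hn0 _)).congr fun z _ => ?_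
      rw [mul_div_assoc, div_self hn0, mul_one]
  refine jump ψ.toOpenPartialHomeomorph (s := 1) one_pos (fun y _ _ _ => mem_univ y)
    (π := range γ) (isCompact_range γ.continuous).isClosed (isPreconnected_range γ.continuous)
    ⟨0, ?_⟩ ⟨1, ?_⟩ ?_ ?_ ?_
  · change _ = ψ _
    rw [hψ]; simp
  · change _ = ψ _
    rw [hψ]; simp [sub_eq_add_neg]
  · rintro τ hτ ⟨t, ht⟩
    have e : ψ.toOpenPartialHomeomorph (τ * I) = p + τ • w := by
      change ψ _ = _
      rw [hψ]; simp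
    rw [e] at ht
    have h2 := (hγ t).2
    rw [ht] at h2
    by_cases h0 : τ = 0
    · rw [h0, zero_smul, add_zero] at h2
      rcases h2 with h2 | h2
      · exact lt_irrefl _ h2
      · exact hne h2
    · have h3 := dn τ hτ h0
      rcases h2 with h2 | h2
      · exact lt_asymm h2 h3
      · rw [h2] at h3
        exact absurd h3 (not_lt.2 hle)
  · have e : ψ.toOpenPartialHomeomorph (((1 : ℝ) : ℂ) * I) = p + w := by
      change ψ _ = _
      rw [hψ]; simp
    rw [e]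
    exact key _ J2
  · have e : ψ.toOpenPartialHomeomorph (-(((1 : ℝ) : ℂ) * I)) = p - w := by
      change ψ _ = _
      rw [hψ]; simp [sub_eq_add_neg]
    rw [e]
    exact key _ J4

/-- X1. Hint: let `u p ≤ u p'`, `p ≠ p'`. Apply `jump` with `s = 1`, the affine chart
`ψ y = p + y.re • v + y.im • w`, and `π` the union of the ranges of the four rising paths and of
`segment ℝ (p' - v') (p' + v')`. On `π` one has `u p < u z` or `z = p'`; on the closed curve
`u p ≤ u z`, so `p ± w` are joined to a vertex `b` in its complement (`HasLogOn.of_joinedIn`), and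
`z - b` has a logarithm on the curve because `(z - b) * conj n` has positive real part. -/
theorem cross_inj {D Vt : Set ℂ} (hD : Convex ℝ D)
    (hV : ∀ b ∈ Vt, ∃ n : ℂ, ∀ z ∈ D, z ≠ b → 0 < ⟪n, z - b⟫_ℝ) {u : ℂ → ℝ} {p p' b₁ b₃ : ℂ}
    (h : Cross D Vt u p b₁ b₃) (h' : Cross D Vt u p' b₁ b₃) : p = p' := by
  rcases le_total (u p) (u p') with hle | hle
  · exact cross_inj_le hD hV h h' hle
  · exact (cross_inj_le hD hV h' h hle).symm

/-- An open parallelogram. -/
def Par (v w : ℂ) (a a' b b' : ℝ) : Set ℂ :=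
  {ξ | a < ⟪ξ, v⟫_ℝ ∧ ⟪ξ, v⟫_ℝ < a' ∧ b < ⟪ξ, w⟫_ℝ ∧ ⟪ξ, w⟫_ℝ < b'}

/-- X2. Hint: `Par` is the preimage of a rectangle under a linear self-map of `ℂ` of determinant
`det2 v w` (`MeasureTheory.Measure.addHaar_preimage_linearMap`,
`Complex.volume_preserving_equiv_real_prod`). -/
theorem volume_par {v w : ℂ} (h : det2 v w ≠ 0) {a a' b b' : ℝ} (ha : a ≤ a') (hb : b ≤ b') :
    MeasureTheory.volume (Par v w a a' b b') =
      ENNReal.ofReal ((a' - a) * (b' - b) / |det2 v w|) := by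
  have hdet : LinearMap.det (crossLin ⟨v.re, w.re⟩ ⟨v.im, w.im⟩) = det2 v w := by
    rw [← LinearMap.det_toMatrix Complex.basisOneI, Matrix.det_fin_two]
    simp [LinearMap.toMatrix_apply, crossLin_apply, det2]
  have e : Par v w a a' b b' = crossLin ⟨v.re, w.re⟩ ⟨v.im, w.im⟩ ⁻¹'
      (Complex.measurableEquivRealProd ⁻¹' (Ioo a a' ×ˢ Ioo b b')) := by
    ext ξ
    have h1 : ⟪ξ, v⟫_ℝ = ξ.re * v.re + ξ.im * v.im := by
      rw [Complex.inner]; simp only [mul_re, conj_re, conj_im, mul_neg, sub_neg_eq_add]; ring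
    have h2 : ⟪ξ, w⟫_ℝ = ξ.re * w.re + ξ.im * w.im := by
      rw [Complex.inner]; simp only [mul_re, conj_re, conj_im, mul_neg, sub_neg_eq_add]; ring
    simp only [Par, h1, h2, mem_ofPred_eq, mem_preimage, crossLin_apply,
      Complex.measurableEquivRealProd_apply, mem_prod, mem_Ioo, add_re, add_im, smul_re, smul_im,
      smul_eq_mul, and_assoc]
  rw [e, MeasureTheory.Measure.addHaar_preimage_linearMap _ (by rw [hdet]; exact h), hdet,
    Complex.volume_preserving_equiv_real_prod.measure_preimage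
      (measurableSet_Ioo.prod measurableSet_Ioo).nullMeasurableSet,
    MeasureTheory.Measure.volume_eq_prod, MeasureTheory.Measure.prod_prod, Real.volume_Ioo,
    Real.volume_Ioo, ← ENNReal.ofReal_mul (sub_nonneg.2 ha), ← ENNReal.ofReal_mul (abs_nonneg _),
    abs_inv, div_eq_inv_mul]

/-- X3. Hint: integrate `∑ i, indicator (Par i) ≤ m * indicator (closedBall 0 C)`;
`Complex.volume_closedBall`. -/
theorem area_sum {ι : Type} (s : Finset ι) (v w : ι → ℂ) (a a' b b' : ι → ℝ) {C : ℝ} {m : ℕ}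
    (hC0 : 0 ≤ C) (hd : ∀ i ∈ s, det2 (v i) (w i) ≠ 0) (ha : ∀ i ∈ s, a i ≤ a' i)
    (hb : ∀ i ∈ s, b i ≤ b' i)
    (hC : ∀ i ∈ s, ∀ ξ ∈ Par (v i) (w i) (a i) (a' i) (b i) (b' i), ‖ξ‖ ≤ C)
    (hm : ∀ ξ : ℂ, ∀ t ⊆ s, (∀ i ∈ t, ξ ∈ Par (v i) (w i) (a i) (a' i) (b i) (b' i)) →
      t.card ≤ m) :
    ∑ i ∈ s, (a' i - a i) * (b' i - b i) / |det2 (v i) (w i)| ≤ m * (Real.pi * C ^ 2) := by
  classical
  set P : ι → Set ℂ := fun i => Par (v i) (w i) (a i) (a' i) (b i) (b' i) with hP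
  have hPm : ∀ i, MeasurableSet (P i) := fun i => by
    refine IsOpen.measurableSet ?_
    have hv : Continuous fun ξ : ℂ => ⟪ξ, v i⟫_ℝ := by fun_prop
    have hw : Continuous fun ξ : ℂ => ⟪ξ, w i⟫_ℝ := by fun_prop
    exact (isOpen_lt continuous_const hv).inter ((isOpen_lt hv continuous_const).inter
      ((isOpen_lt continuous_const hw).inter (isOpen_lt hw continuous_const)))
  have hpt : ∀ ξ : ℂ, ∑ i ∈ s, (P i).indicator (1 : ℂ → ENNReal) ξ ≤
      (Metric.closedBall (0 : ℂ) C).indicator (fun _ => (m : ENNReal)) ξ := by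
    intro ξ
    by_cases hξ : ξ ∈ Metric.closedBall (0 : ℂ) C
    · rw [indicator_of_mem hξ]
      have : ∑ i ∈ s, (P i).indicator (1 : ℂ → ENNReal) ξ =
          ((s.filter fun i => ξ ∈ P i).card : ENNReal) := by
        simp [indicator_apply]
      rw [this]
      exact_mod_cast hm ξ _ (Finset.filter_subset _ _) fun i hi => (Finset.mem_filter.1 hi).2
    · rw [indicator_of_notMem hξ]
      refine (Finset.sum_eq_zero fun i hi => indicator_of_notMem (fun h => hξ ?_) _).le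
      exact mem_closedBall_zero_iff.2 (hC i hi ξ h)
  have hint := MeasureTheory.lintegral_mono (μ := MeasureTheory.volume) hpt
  rw [MeasureTheory.lintegral_finsetSum _ fun i _ => measurable_one.indicator (hPm i),
    MeasureTheory.lintegral_indicator_const measurableSet_closedBall,
    Complex.volume_closedBall] at hint
  have e : ∑ i ∈ s, ∫⁻ ξ, (P i).indicator (1 : ℂ → ENNReal) ξ =
      ENNReal.ofReal (∑ i ∈ s, (a' i - a i) * (b' i - b i) / |det2 (v i) (w i)|) := by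
    rw [ENNReal.ofReal_sum_of_nonneg fun i hi => div_nonneg
      (mul_nonneg (sub_nonneg.2 (ha i hi)) (sub_nonneg.2 (hb i hi))) (abs_nonneg _)]
    refine Finset.sum_congr rfl fun i hi => ?_
    rw [MeasureTheory.lintegral_indicator_one (hPm i)]
    exact volume_par (hd i hi) (ha i hi) (hb i hi)
  have e2 : (m : ENNReal) * (ENNReal.ofReal C ^ 2 * NNReal.pi) =
      ENNReal.ofReal (m * (Real.pi * C ^ 2)) := by
    rw [ENNReal.ofReal_mul (Nat.cast_nonneg _), ENNReal.ofReal_natCast, mul_comm Real.pi,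
      ENNReal.ofReal_mul (sq_nonneg _), ENNReal.ofReal_pow hC0, ← NNReal.coe_real_pi,
      ENNReal.ofReal_coe_nnreal]
  rw [e, e2] at hint
  exact (ENNReal.ofReal_le_ofReal_iff (by positivity)).1 hint

end Pool.Agent.MP_17e62b_gt.H14
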