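import Pool.Agent.MP_17e62b_gt.Defs

/-!
Polyhedral surfaces.
-/

namespace Pool.Agent.MP_17e62b_gt

/-- `S` is piecewise linear with respect to a triangulation of its domain: the domain is
homeomorphic to the space of a finite geometric simplicial complex, and in these coordinates the
map is affine on every simplex. -/
def Surface.IsPolyhedral {n : ℕ} (S : Surface n) : Prop :=
  ∃ (m : ℕ) (K : Geometry.SimplicialComplex ℝ (EuclideanSpace ℝ (Fin m))) (φ : S.M ≃ₜ K.space),
    K.faces.Finite ∧ ∀ s ∈ K.faces,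
      ∃ A : EuclideanSpace ℝ (Fin m) →ᵃ[ℝ] EuclideanSpace ℝ (Fin n),
        ∀ x : S.M, (φ x : EuclideanSpace ℝ (Fin m)) ∈ convexHull ℝ (s : Set _) →
          S.f x = A (φ x)

end Pool.Agent.MP_17e62b_gt
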